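import Mathlib

/-!
# Slopes and Hodge-Tate weights of the cohomology of varieties, with a Künneth formula
-/

set_option autoImplicit false

open Filter Topology

namespace Pool.Agent.W5h2.OR

/-- the multiset of all sums `a + b`, `a ∈ s`, `b ∈ t` (the pairs are added componentwise) -/
def conv (s t : Multiset (ℕ × ℚ)) : Multiset (ℕ × ℚ) := s.bind fun a => t.map fun b => a + b

/-- the second components of the elements of `s` with first component `i` -/
def part (s : Multiset (ℕ × ℚ)) (i : ℕ) : Multiset ℚ := (s.filter fun a => a.1 = i).map Prod.snd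

/-- The convex polygon with the slopes `s` lies above the one with the slopes `w`, and they have the
same end points. -/
def Above (s w : Multiset ℚ) : Prop :=
  ∃ (n : ℕ) (a b : ℕ → ℚ), Monotone a ∧ Monotone b ∧ s = (Multiset.range n).map a ∧
    w = (Multiset.range n).map b ∧
    (∀ m ≤ n, ∑ i ∈ Finset.range m, b i ≤ ∑ i ∈ Finset.range m, a i) ∧
    ∑ i ∈ Finset.range n, a i = ∑ i ∈ Finset.range n, b i

/-- A class `Var` of varieties over a number field with products and a dimension, and the set `ι` of
the maximal ideals `v` of the ring of integers. `weights X` are the pairs `(i, w)`, `w` a Hodge-Tate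
weight of `H ^ i (X)`, and `slopes X v` the pairs `(i, s)`, `s` a slope of the Frobenius element at `v`
on `H ^ i (X)`, with multiplicities. The weights are integers, and zero if `dim X = 0`; there is a
Künneth formula; for almost all `v` the Newton polygon of every `H ^ i (X)` lies above the Hodge
polygon, with the same end points (Mazur), and the slopes have bounded denominators. -/
structure Slopes (ι Var : Type) where
  prod : Var → Var → Var
  dim : Var → ℕ
  dim_prod : ∀ X Y, dim (prod X Y) = dim X + dim Y
  weights : Var → Multiset (ℕ × ℚ)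
  slopes : Var → ι → Multiset (ℕ × ℚ)
  nz : ∀ X, weights X ≠ 0
  int : ∀ X, ∀ a ∈ weights X, ∃ z : ℤ, a.2 = z
  zero : ∀ X, dim X = 0 → ∀ a ∈ weights X, a.2 = 0
  weights_prod : ∀ X Y, weights (prod X Y) = conv (weights X) (weights Y)
  slopes_prod : ∀ X Y, ∀ᶠ v in cofinite, slopes (prod X Y) v = conv (slopes X v) (slopes Y v)
  above : ∀ X, ∀ᶠ v in cofinite, ∀ i, Above (part (slopes X v) i) (part (weights X) i)
  denom : ∀ X, ∃ M : ℕ, 0 < M ∧ ∀ᶠ v in cofinite, ∀ a ∈ slopes X v, ∃ z : ℤ, M * a.2 = z

variable {ι Var : Type}

/-- A notion of largeness `S` for sets of maximal ideals: everything is large, and a set that contains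
all but finitely many elements of a large set is large. Examples: the infinite sets; the sets of upper
density `≥ c`; the sets of density one. -/
structure Large (S : Set (Set ι)) : Prop where
  univ_mem : Set.univ ∈ S
  almost : ∀ A B, A ∈ S → (A \ B).Finite → B ∈ S

/-- the sets of upper density `≥ c` for the counting function given by the finite sets `E x` -/
def UpperDensity (E : ℕ → Finset ι) (c : ℝ) : Set (Set ι) :=
  {A | ∀ ε : ℝ, 0 < ε → ∃ᶠ x in atTop, (c - ε) * (E x).card ≤ ({v | v ∈ E x ∧ v ∈ A} : Set ι).ncard}

/-- The polygons with the slopes `s` and `w` have distance at most `c`. -/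
def Near (c : ℝ) (s w : Multiset ℚ) : Prop :=
  ∃ (n : ℕ) (a b : ℕ → ℚ), Monotone a ∧ Monotone b ∧ s = (Multiset.range n).map a ∧
    w = (Multiset.range n).map b ∧
    ∀ m ≤ n, ((|∑ i ∈ Finset.range m, a i - ∑ i ∈ Finset.range m, b i| : ℚ) : ℝ) ≤ c

/-- the variety `X ^ (n + 1)` -/
def Slopes.pow (T : Slopes ι Var) (X : Var) : ℕ → Var
  | 0 => X
  | n + 1 => T.prod X (T.pow X n)

/-- the dimension of the total cohomology -/
def Slopes.deg (T : Slopes ι Var) (X : Var) : ℕ := (T.weights X).card

/-- `v` is ordinary for `H ^ i (X)` -/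
def Slopes.OrdAt (T : Slopes ι Var) (X : Var) (i : ℕ) (v : ι) : Prop :=
  part (T.slopes X v) i = part (T.weights X) i

/-- `v` is ordinary for all cohomology groups of `X` -/
def Slopes.Ord (T : Slopes ι Var) (X : Var) (v : ι) : Prop := T.slopes X v = T.weights X

/-- the sum of the squares of the Hodge-Tate weights minus the sum of the squares of the slopes -/
def Slopes.defect (T : Slopes ι Var) (X : Var) (v : ι) : ℚ :=
  ((T.weights X).map fun a => a.2 ^ 2).sum - ((T.slopes X v).map fun a => a.2 ^ 2).sum

/-- the number of Hodge-Tate weights of `X` which are not slopes at `v`, with multiplicities -/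
def Slopes.wrong (T : Slopes ι Var) (X : Var) (v : ι) : ℕ :=
  ((T.weights X).map Prod.snd - (T.slopes X v).map Prod.snd).card

/-- **Q1**: for every `X` and `i`, the set of the ordinary `v` for `H ^ i (X)` is large -/
def Slopes.Q1 (T : Slopes ι Var) (S : Set (Set ι)) : Prop := ∀ X i, {v | T.OrdAt X i v} ∈ S

/-- for every `X` the set of the `v` which are ordinary for all cohomology groups is large -/
def Slopes.AllOrd (T : Slopes ι Var) (S : Set (Set ι)) : Prop := ∀ X, {v | T.Ord X v} ∈ S

/-- for every `X` the set of the `v` with defect at most `f (dim X) * deg X` is large, where `f` is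
sublinear -/
def Slopes.SmallDefect (T : Slopes ι Var) (S : Set (Set ι)) : Prop :=
  ∃ f : ℕ → ℝ, Tendsto (fun n => f n / n) atTop (𝓝 0) ∧
    ∀ X, {v | (T.defect X v : ℝ) ≤ f (T.dim X) * T.deg X} ∈ S

/-- for every `X` the set of the `v` such that the proportion of the Hodge-Tate weights which are not
slopes is at most `g (dim X)` is large, where `g` tends to zero -/
def Slopes.FewWrong (T : Slopes ι Var) (S : Set (Set ι)) : Prop :=
  ∃ g : ℕ → ℝ, Tendsto g atTop (𝓝 0) ∧
    ∀ X, {v | (T.wrong X v : ℝ) ≤ g (T.dim X) * T.deg X} ∈ S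

/-- the distance of the Newton polygon and the Hodge polygon of the total cohomology is at most `c` -/
def Slopes.NearAt (T : Slopes ι Var) (c : ℝ) (X : Var) (v : ι) : Prop :=
  Near c ((T.slopes X v).map Prod.snd) ((T.weights X).map Prod.snd)

/-- for every `X` the set of the `v` such that the distance of the Newton polygon and the Hodge polygon
of the total cohomology is at most `g (dim X) * deg X` is large, where `g` tends to zero -/
def Slopes.Close (T : Slopes ι Var) (S : Set (Set ι)) : Prop :=
  ∃ g : ℕ → ℝ, Tendsto g atTop (𝓝 0) ∧ ∀ X, {v | T.NearAt (g (T.dim X) * T.deg X) X v} ∈ S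

/-- for every `ε > 0` there is a power `X ^ (n + 1)` such that the set of the `v` with defect at most
`ε (n + 1) * deg (X ^ (n + 1))` is large -/
def Slopes.DefectPow (T : Slopes ι Var) (S : Set (Set ι)) (X : Var) : Prop :=
  ∀ ε : ℝ, 0 < ε → ∃ n,
    {v | (T.defect (T.pow X n) v : ℝ) ≤ ε * (n + 1) * T.deg (T.pow X n)} ∈ S

/-- for every `ε > 0` there is a power `X ^ (n + 1)` such that the set of the `v` for which the
proportion of the Hodge-Tate weights which are not slopes is at most `ε` is large -/
def Slopes.WrongPow (T : Slopes ι Var) (S : Set (Set ι)) (X : Var) : Prop :=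
  ∀ ε : ℝ, 0 < ε → ∃ n, {v | (T.wrong (T.pow X n) v : ℝ) ≤ ε * T.deg (T.pow X n)} ∈ S

/-- for every `ε > 0` there is a power `Y = X ^ (n + 1)` such that the set of the `v` for which the
Newton polygon and the Hodge polygon have distance at most `ε * deg Y` is large -/
def Slopes.ClosePow (T : Slopes ι Var) (S : Set (Set ι)) (X : Var) : Prop :=
  ∀ ε : ℝ, 0 < ε → ∃ n, {v | T.NearAt (ε * T.deg (T.pow X n)) (T.pow X n) v} ∈ S

/-- there is one large set `P` such that for every `X` almost all `v ∈ P` are ordinary for all
cohomology groups of `X` -/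
def Slopes.Universal (T : Slopes ι Var) (S : Set (Set ι)) : Prop :=
  ∃ P ∈ S, ∀ X, (P \ {v | T.Ord X v}).Finite

end Pool.Agent.W5h2.OR
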