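import Mathlib
import Pool.Agent.W5h2.OR.Def

/-!
# Moments
-/

set_option autoImplicit false
set_option linter.unusedSectionVars false

open Filter Topology

namespace Pool.Agent.W5h2.OR

section gen

variable {α β : Type}

theorem inner_two (t : Multiset β) (z : β → ℝ) (u : ℝ) :
    (t.map fun b => (u + z b) ^ 2).sum =
      t.card * u ^ 2 + 2 * u * (t.map z).sum + (t.map fun b => z b ^ 2).sum := by
  induction t using Multiset.induction_on with
  | empty => simp
  | cons b t ih =>
    rw [Multiset.map_cons, Multiset.sum_cons, ih, Multiset.card_cons, Multiset.map_cons,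
      Multiset.sum_cons, Multiset.map_cons, Multiset.sum_cons]
    push_cast
    ring

theorem inner_four (t : Multiset β) (z : β → ℝ) (u : ℝ) :
    (t.map fun b => (u + z b) ^ 4).sum =
      t.card * u ^ 4 + 4 * u ^ 3 * (t.map z).sum + 6 * u ^ 2 * (t.map fun b => z b ^ 2).sum +
        4 * u * (t.map fun b => z b ^ 3).sum + (t.map fun b => z b ^ 4).sum := by
  induction t using Multiset.induction_on with
  | empty => simp
  | cons b t ih =>
    rw [Multiset.map_cons, Multiset.sum_cons, ih, Multiset.card_cons, Multiset.map_cons,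
      Multiset.sum_cons, Multiset.map_cons, Multiset.sum_cons, Multiset.map_cons,
      Multiset.sum_cons, Multiset.map_cons, Multiset.sum_cons]
    push_cast
    ring

theorem inner_one (t : Multiset β) (z : β → ℝ) (u : ℝ) :
    (t.map fun b => u + z b).sum = t.card * u + (t.map z).sum := by
  induction t using Multiset.induction_on with
  | empty => simp
  | cons b t ih =>
    rw [Multiset.map_cons, Multiset.sum_cons, ih, Multiset.card_cons, Multiset.map_cons,
      Multiset.sum_cons]
    push_cast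
    ring

theorem outer_one (s : Multiset α) (t : Multiset β) (y : α → ℝ) (z : β → ℝ) :
    (s.map fun a => (t.map fun b => y a + z b).sum).sum =
      t.card * (s.map y).sum + s.card * (t.map z).sum := by
  simp_rw [inner_one]
  induction s using Multiset.induction_on with
  | empty => simp
  | cons a s ih =>
    rw [Multiset.map_cons, Multiset.sum_cons, ih, Multiset.card_cons, Multiset.map_cons,
      Multiset.sum_cons]
    push_cast
    ring

theorem outer_two (s : Multiset α) (t : Multiset β) (y : α → ℝ) (z : β → ℝ) :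
    (s.map fun a => (t.map fun b => (y a + z b) ^ 2).sum).sum =
      t.card * (s.map fun a => y a ^ 2).sum + 2 * (s.map y).sum * (t.map z).sum +
        s.card * (t.map fun b => z b ^ 2).sum := by
  simp_rw [inner_two]
  induction s using Multiset.induction_on with
  | empty => simp
  | cons a s ih =>
    rw [Multiset.map_cons, Multiset.sum_cons, ih, Multiset.card_cons, Multiset.map_cons,
      Multiset.sum_cons, Multiset.map_cons, Multiset.sum_cons]
    push_cast
    ring

theorem outer_four (s : Multiset α) (t : Multiset β) (y : α → ℝ) (z : β → ℝ) :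
    (s.map fun a => (t.map fun b => (y a + z b) ^ 4).sum).sum =
      t.card * (s.map fun a => y a ^ 4).sum + 4 * (s.map fun a => y a ^ 3).sum * (t.map z).sum +
        6 * (s.map fun a => y a ^ 2).sum * (t.map fun b => z b ^ 2).sum +
        4 * (s.map y).sum * (t.map fun b => z b ^ 3).sum +
        s.card * (t.map fun b => z b ^ 4).sum := by
  simp_rw [inner_four]
  induction s using Multiset.induction_on with
  | empty => simp
  | cons a s ih =>
    rw [Multiset.map_cons, Multiset.sum_cons, ih, Multiset.card_cons, Multiset.map_cons,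
      Multiset.sum_cons, Multiset.map_cons, Multiset.sum_cons, Multiset.map_cons,
      Multiset.sum_cons, Multiset.map_cons, Multiset.sum_cons]
    push_cast
    ring

end gen

theorem conv_sum (s t : Multiset (ℕ × ℚ)) (F : ℕ × ℚ → ℝ) :
    ((conv s t).map F).sum = (s.map fun a => (t.map fun b => F (a + b)).sum).sum := by
  unfold conv
  rw [Multiset.map_bind, Multiset.sum_bind]
  simp only [Multiset.map_map, Function.comp_def]

theorem card_conv (s t : Multiset (ℕ × ℚ)) : (conv s t).card = s.card * t.card := by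
  unfold conv
  rw [Multiset.card_bind]
  simp

/-- the moments -/
noncomputable def mom (k : ℕ) (c : ℝ) (s : Multiset (ℕ × ℚ)) : ℝ :=
  (s.map fun a => ((a.2 : ℝ) - c) ^ k).sum

theorem mom_zero (c : ℝ) (s : Multiset (ℕ × ℚ)) : mom 0 c s = s.card := by
  unfold mom
  simp

theorem snd_add (a b : ℕ × ℚ) (c c' : ℝ) : (((a + b).2 : ℚ) : ℝ) - (c + c') =
    ((a.2 : ℝ) - c) + ((b.2 : ℝ) - c') := by
  rw [Prod.snd_add]
  push_cast
  ring

theorem mom_one_conv (s t : Multiset (ℕ × ℚ)) (c c' : ℝ) :
    mom 1 (c + c') (conv s t) = t.card * mom 1 c s + s.card * mom 1 c' t := by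
  unfold mom
  rw [conv_sum]
  simp_rw [snd_add, pow_one]
  exact outer_one s t (fun a => (a.2 : ℝ) - c) (fun b => (b.2 : ℝ) - c')

theorem mom_two_conv (s t : Multiset (ℕ × ℚ)) (c c' : ℝ) :
    mom 2 (c + c') (conv s t) = t.card * mom 2 c s + 2 * mom 1 c s * mom 1 c' t +
      s.card * mom 2 c' t := by
  unfold mom
  rw [conv_sum]
  simp_rw [snd_add, pow_one]
  exact outer_two s t (fun a => (a.2 : ℝ) - c) (fun b => (b.2 : ℝ) - c')

theorem mom_four_conv (s t : Multiset (ℕ × ℚ)) (c c' : ℝ) :
    mom 4 (c + c') (conv s t) = t.card * mom 4 c s + 4 * mom 3 c s * mom 1 c' t +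
      6 * mom 2 c s * mom 2 c' t + 4 * mom 1 c s * mom 3 c' t + s.card * mom 4 c' t := by
  unfold mom
  rw [conv_sum]
  simp_rw [snd_add, pow_one]
  exact outer_four s t (fun a => (a.2 : ℝ) - c) (fun b => (b.2 : ℝ) - c')

/-- powers -/
def cpow (s : Multiset (ℕ × ℚ)) : ℕ → Multiset (ℕ × ℚ)
  | 0 => s
  | n + 1 => conv s (cpow s n)

theorem card_cpow (s : Multiset (ℕ × ℚ)) (n : ℕ) : (cpow s n).card = s.card ^ (n + 1) := by
  induction n with
  | zero => simp [cpow]
  | succ n ih => rw [cpow, card_conv, ih, pow_succ' s.card (n + 1)]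

variable {s : Multiset (ℕ × ℚ)} {c : ℝ}

theorem mom_one_cpow (h : mom 1 c s = 0) (n : ℕ) : mom 1 ((n + 1) * c) (cpow s n) = 0 := by
  induction n with
  | zero => rw [Nat.cast_zero, zero_add, one_mul]; exact h
  | succ n ih =>
    have e : ((n + 1 : ℕ) + 1 : ℝ) * c = c + (n + 1) * c := by push_cast; ring
    rw [e, cpow, mom_one_conv, h, ih, mul_zero, mul_zero, add_zero]

theorem mom_two_cpow (h : mom 1 c s = 0) (n : ℕ) :
    mom 2 ((n + 1) * c) (cpow s n) = (n + 1) * s.card ^ n * mom 2 c s := by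
  induction n with
  | zero => rw [Nat.cast_zero, zero_add, one_mul, pow_zero, one_mul, one_mul]; rfl
  | succ n ih =>
    have e : ((n + 1 : ℕ) + 1 : ℝ) * c = c + (n + 1) * c := by push_cast; ring
    rw [e, cpow, mom_two_conv, h, ih, card_cpow]
    push_cast
    ring

theorem mom_four_cpow (h : mom 1 c s = 0) (n : ℕ) :
    s.card * mom 4 ((n + 1) * c) (cpow s n) ≤
      (n + 1) ^ 2 * (s.card ^ n * (s.card * mom 4 c s + 3 * mom 2 c s ^ 2)) := by
  have hm4 : 0 ≤ mom 4 c s := by
    unfold mom
    exact Multiset.sum_nonneg (by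
      intro x hx
      obtain ⟨a, -, rfl⟩ := Multiset.mem_map.1 hx
      positivity)
  rcases Nat.eq_zero_or_pos s.card with h0 | h0
  · have hs : s = 0 := Multiset.card_eq_zero.1 h0
    subst hs
    simp [mom]
  have hb : (0 : ℝ) < s.card := by exact_mod_cast h0
  induction n with
  | zero =>
    rw [Nat.cast_zero, zero_add, one_mul, pow_zero, one_mul, one_pow, one_mul]
    have : 0 ≤ 3 * mom 2 c s ^ 2 := by positivity
    show (s.card : ℝ) * mom 4 c s ≤ _
    linarith
  | succ n ih =>
    have e : ((n + 1 : ℕ) + 1 : ℝ) * c = c + (n + 1) * c := by push_cast; ring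
    rw [e, cpow, mom_four_conv, h, mom_one_cpow h, mom_two_cpow h, card_cpow]
    have e2 : (s.card : ℝ) * ((((s.card ^ (n + 1) : ℕ)) : ℝ) * mom 4 c s + 4 * mom 3 c s * 0 +
        6 * mom 2 c s * (((n : ℝ) + 1) * (s.card : ℝ) ^ n * mom 2 c s) +
        4 * 0 * mom 3 ((n + 1) * c) (cpow s n) +
        (s.card : ℝ) * mom 4 ((n + 1) * c) (cpow s n)) =
        (s.card : ℝ) ^ (n + 1) * (s.card * mom 4 c s) +
        6 * (n + 1) * ((s.card : ℝ) ^ (n + 1) * mom 2 c s ^ 2) +
        s.card * (s.card * mom 4 ((n + 1) * c) (cpow s n)) := by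
      push_cast
      ring
    rw [e2]
    have h1 := mul_le_mul_of_nonneg_left ih hb.le
    have h2 : 0 ≤ (s.card : ℝ) ^ (n + 1) * (s.card * mom 4 c s) := by positivity
    have h3 : 0 ≤ (s.card : ℝ) ^ (n + 1) * mom 2 c s ^ 2 := by positivity
    have h4 : (s.card : ℝ) * (((n : ℝ) + 1) ^ 2 * ((s.card : ℝ) ^ n * (s.card * mom 4 c s +
        3 * mom 2 c s ^ 2))) = ((n : ℝ) + 1) ^ 2 * ((s.card : ℝ) ^ (n + 1) * (s.card * mom 4 c s)) +
        3 * ((n : ℝ) + 1) ^ 2 * ((s.card : ℝ) ^ (n + 1) * mom 2 c s ^ 2) := by ring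
    have h5 : (((n + 1 : ℕ) : ℝ) + 1) ^ 2 * ((s.card : ℝ) ^ (n + 1) * (s.card * mom 4 c s +
        3 * mom 2 c s ^ 2)) = ((n : ℝ) + 2) ^ 2 * ((s.card : ℝ) ^ (n + 1) * (s.card * mom 4 c s)) +
        3 * ((n : ℝ) + 2) ^ 2 * ((s.card : ℝ) ^ (n + 1) * mom 2 c s ^ 2) := by
      push_cast; ring
    rw [h5]
    rw [h4] at h1
    have hn : (0 : ℝ) ≤ n := Nat.cast_nonneg n
    nlinarith

end Pool.Agent.W5h2.OR
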