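import Mathlib
import Pool.Agent.W5h2.OR.Mom

/-!
# Graded multisets, one polygon above another one
-/

set_option autoImplicit false
set_option linter.unusedSectionVars false

open Filter Topology

namespace Pool.Agent.W5h2.OR

/-- the sum of the squares -/
def squares (s : Multiset ℚ) : ℚ := (s.map fun x => x ^ 2).sum

/-- Summation by parts. -/
theorem abel_nonneg {n : ℕ} {a b : ℕ → ℚ} (ha : Monotone a)
    (h : ∀ m ≤ n, ∑ i ∈ Finset.range m, b i ≤ ∑ i ∈ Finset.range m, a i) :
    ∀ m, m + 1 ≤ n → a m * (∑ i ∈ Finset.range (m + 1), (b i - a i)) ≤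
      ∑ i ∈ Finset.range (m + 1), a i * (b i - a i) := by
  intro m
  induction m with
  | zero => intro _; simp
  | succ m ih =>
    intro hm
    have h1 := ih (by omega)
    rw [Finset.sum_range_succ _ (m + 1), Finset.sum_range_succ _ (m + 1)]
    have h2 : ∑ i ∈ Finset.range (m + 1), (b i - a i) ≤ 0 := by
      rw [Finset.sum_sub_distrib]
      have := h (m + 1) (by omega)
      linarith
    have h3 : a m ≤ a (m + 1) := ha (Nat.le_succ m)
    nlinarith

/-- If a polygon lies above another one, its slopes have the smaller sum of squares, and equality holds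
only for equal polygons. -/
theorem Above.squares_le {s w : Multiset ℚ} (h : Above s w) :
    squares s ≤ squares w ∧ (squares s = squares w → s = w) := by
  obtain ⟨n, a, b, ha, hb, rfl, rfl, hp, he⟩ := h
  have h1 : ∀ f : ℕ → ℚ, squares ((Multiset.range n).map f) = ∑ i ∈ Finset.range n, f i ^ 2 := by
    intro f
    rw [squares, Multiset.map_map]
    rfl
  rw [h1, h1]
  have h2 : 0 ≤ ∑ i ∈ Finset.range n, a i * (b i - a i) := by
    rcases n with _ | n
    · simp
    · have h3 := abel_nonneg ha hp n le_rfl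
      have h4 : ∑ i ∈ Finset.range (n + 1), (b i - a i) = 0 := by
        rw [Finset.sum_sub_distrib, he, sub_self]
      rw [h4, mul_zero] at h3
      exact h3
  have h3 : ∑ i ∈ Finset.range n, b i ^ 2 = ∑ i ∈ Finset.range n, a i ^ 2 +
      (∑ i ∈ Finset.range n, (b i - a i) ^ 2 + 2 * ∑ i ∈ Finset.range n, a i * (b i - a i)) := by
    rw [Finset.mul_sum, ← Finset.sum_add_distrib, ← Finset.sum_add_distrib]
    exact Finset.sum_congr rfl fun i _ => by ring
  have h4 : 0 ≤ ∑ i ∈ Finset.range n, (b i - a i) ^ 2 := Finset.sum_nonneg fun i _ => sq_nonneg _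
  refine ⟨by linarith, fun h5 => ?_⟩
  have h6 : ∑ i ∈ Finset.range n, (b i - a i) ^ 2 = 0 := by linarith
  have h7 := (Finset.sum_eq_zero_iff_of_nonneg fun i _ => sq_nonneg (b i - a i)).mp h6
  refine Multiset.map_congr rfl fun i hi => ?_
  have h8 := h7 i (by rwa [Finset.mem_range, ← Multiset.mem_range])
  have h9 : b i - a i = 0 := by exact pow_eq_zero_iff (two_ne_zero) |>.mp h8
  linarith

theorem Above.card_eq {s w : Multiset ℚ} (h : Above s w) : s.card = w.card := by
  obtain ⟨n, a, b, ha, hb, rfl, rfl, hp, he⟩ := h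
  rw [Multiset.card_map, Multiset.card_map]

theorem Above.sum_eq {s w : Multiset ℚ} (h : Above s w) : s.sum = w.sum := by
  obtain ⟨n, a, b, ha, hb, rfl, rfl, hp, he⟩ := h
  exact he

/-- fibrewise summation -/
theorem fib_sum (s : Multiset (ℕ × ℚ)) (F : ℕ × ℚ → ℝ) (B : ℕ) (hB : ∀ a ∈ s, a.1 < B) :
    (s.map F).sum = ∑ i ∈ Finset.range B, ((part s i).map fun x => F (i, x)).sum := by
  induction s using Multiset.induction_on with
  | empty => simp [part]
  | cons a s ih =>
    rw [Multiset.map_cons, Multiset.sum_cons, ih fun b hb => hB b (Multiset.mem_cons_of_mem hb)]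
    have h1 : ∀ i, ((part (a ::ₘ s) i).map fun x => F (i, x)).sum =
        (if a.1 = i then F a else 0) + ((part s i).map fun x => F (i, x)).sum := by
      intro i
      unfold part
      by_cases h : a.1 = i
      · subst h
        rw [Multiset.filter_cons_of_pos (p := fun b : ℕ × ℚ => b.1 = a.1) s rfl, Multiset.map_cons,
          Multiset.map_cons, Multiset.sum_cons, if_pos rfl]
      · rw [Multiset.filter_cons_of_neg (p := fun b : ℕ × ℚ => b.1 = i) s h, if_neg h, zero_add]
    simp_rw [h1]
    rw [Finset.sum_add_distrib, Finset.sum_ite_eq, if_pos (Finset.mem_range.2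
      (hB a (Multiset.mem_cons_self a s)))]

theorem exists_bound (s : Multiset (ℕ × ℚ)) : ∃ B, ∀ a ∈ s, a.1 < B := by
  induction s using Multiset.induction_on with
  | empty => exact ⟨0, by simp⟩
  | cons a s ih =>
    obtain ⟨B, hB⟩ := ih
    refine ⟨max B (a.1 + 1), fun b hb => ?_⟩
    rcases Multiset.mem_cons.1 hb with rfl | hb
    · exact lt_of_lt_of_le (Nat.lt_succ_self _) (le_max_right _ _)
    · exact lt_of_lt_of_le (hB b hb) (le_max_left _ _)

theorem exists_bound₂ (s t : Multiset (ℕ × ℚ)) : ∃ B, (∀ a ∈ s, a.1 < B) ∧ ∀ a ∈ t, a.1 < B := by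
  obtain ⟨B, hB⟩ := exists_bound s
  obtain ⟨B', hB'⟩ := exists_bound t
  exact ⟨max B B', fun a ha => lt_of_lt_of_le (hB a ha) (le_max_left _ _),
    fun a ha => lt_of_lt_of_le (hB' a ha) (le_max_right _ _)⟩

/-- weighted moments -/
noncomputable def wm (G : ℕ → ℝ) (k : ℕ) (s : Multiset (ℕ × ℚ)) : ℝ :=
  (s.map fun a => G a.1 * (a.2 : ℝ) ^ k).sum

theorem wm_fib (G : ℕ → ℝ) (k : ℕ) (s : Multiset (ℕ × ℚ)) {B : ℕ} (hB : ∀ a ∈ s, a.1 < B) :
    wm G k s = ∑ i ∈ Finset.range B, G i * ((part s i).map fun x : ℚ => (x : ℝ) ^ k).sum := by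
  unfold wm
  rw [fib_sum s _ B hB]
  refine Finset.sum_congr rfl fun i _ => ?_
  simp only
  rw [Multiset.sum_map_mul_left]

/-- all parts of `s` are above the parts of `w` -/
def GAbove (s w : Multiset (ℕ × ℚ)) : Prop := ∀ i, Above (part s i) (part w i)

variable {s w s' w' : Multiset (ℕ × ℚ)}

theorem GAbove.wm_zero (h : GAbove s w) (G : ℕ → ℝ) : wm G 0 s = wm G 0 w := by
  obtain ⟨B, h1, h2⟩ := exists_bound₂ s w
  rw [wm_fib G 0 s h1, wm_fib G 0 w h2]
  refine Finset.sum_congr rfl fun i _ => ?_
  simp only [pow_zero, Multiset.map_const', Multiset.sum_replicate, (h i).card_eq]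

theorem GAbove.wm_one (h : GAbove s w) (G : ℕ → ℝ) : wm G 1 s = wm G 1 w := by
  obtain ⟨B, h1, h2⟩ := exists_bound₂ s w
  rw [wm_fib G 1 s h1, wm_fib G 1 w h2]
  refine Finset.sum_congr rfl fun i _ => ?_
  have e : ∀ t : Multiset ℚ, (t.map fun x : ℚ => (x : ℝ) ^ 1).sum = ((t.sum : ℚ) : ℝ) := by
    intro t
    induction t using Multiset.induction_on with
    | empty => simp
    | cons a t ih => rw [Multiset.map_cons, Multiset.sum_cons, ih, Multiset.sum_cons]; push_cast; ring
  rw [e, e, (h i).sum_eq]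

theorem cast_squares (t : Multiset ℚ) :
    (t.map fun x : ℚ => (x : ℝ) ^ 2).sum = ((squares t : ℚ) : ℝ) := by
  unfold squares
  induction t using Multiset.induction_on with
  | empty => simp
  | cons a t ih =>
    rw [Multiset.map_cons, Multiset.sum_cons, ih, Multiset.map_cons, Multiset.sum_cons]
    push_cast
    ring

theorem GAbove.wm_two (h : GAbove s w) {G : ℕ → ℝ} (hG : ∀ i, 0 ≤ G i) :
    wm G 2 s ≤ wm G 2 w ∧ (wm G 2 s = wm G 2 w → ∀ i, 0 < G i → part s i = part w i) := by
  obtain ⟨B, h1, h2⟩ := exists_bound₂ s w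
  rw [wm_fib G 2 s h1, wm_fib G 2 w h2]
  simp_rw [cast_squares]
  have h3 : ∀ i, G i * ((squares (part s i) : ℚ) : ℝ) ≤ G i * ((squares (part w i) : ℚ) : ℝ) := by
    intro i
    refine mul_le_mul_of_nonneg_left ?_ (hG i)
    exact_mod_cast (h i).squares_le.1
  refine ⟨Finset.sum_le_sum fun i _ => h3 i, fun h4 i hi => ?_⟩
  by_cases hiB : i < B
  · have h5 := (Finset.sum_eq_sum_iff_of_le fun i _ => h3 i).1 h4 i (Finset.mem_range.2 hiB)
    have h6 := mul_left_cancel₀ hi.ne' h5
    exact (h i).squares_le.2 (by exact_mod_cast h6)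
  · have h5 : ∀ t : Multiset (ℕ × ℚ), (∀ a ∈ t, a.1 < B) → part t i = 0 := by
      intro t ht
      unfold part
      rw [Multiset.filter_eq_nil.2, Multiset.map_zero]
      intro a ha hai
      exact hiB (hai ▸ ht a ha)
    rw [h5 s h1, h5 w h2]

theorem mom_eq_wm (k : ℕ) (s : Multiset (ℕ × ℚ)) : mom k 0 s = wm (fun _ => 1) k s := by
  unfold mom wm
  simp

theorem mom_one_c (c : ℝ) (s : Multiset (ℕ × ℚ)) : mom 1 c s = mom 1 0 s - c * s.card := by
  unfold mom
  induction s using Multiset.induction_on with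
  | empty => simp
  | cons a s ih =>
    rw [Multiset.map_cons, Multiset.sum_cons, ih, Multiset.map_cons, Multiset.sum_cons,
      Multiset.card_cons]
    push_cast
    ring

theorem mom_two_c (c : ℝ) (s : Multiset (ℕ × ℚ)) :
    mom 2 c s = mom 2 0 s - 2 * c * mom 1 0 s + c ^ 2 * s.card := by
  unfold mom
  induction s using Multiset.induction_on with
  | empty => simp
  | cons a s ih =>
    rw [Multiset.map_cons, Multiset.sum_cons, ih, Multiset.map_cons, Multiset.sum_cons,
      Multiset.map_cons, Multiset.sum_cons, Multiset.card_cons]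
    push_cast
    ring

theorem GAbove.card_eq (h : GAbove s w) : s.card = w.card := by
  have h1 := h.wm_zero (fun _ => 1)
  rw [← mom_eq_wm, ← mom_eq_wm, mom_zero, mom_zero] at h1
  exact_mod_cast h1

theorem GAbove.mom_one (h : GAbove s w) (c : ℝ) : mom 1 c s = mom 1 c w := by
  rw [mom_one_c, mom_one_c c w, mom_eq_wm, mom_eq_wm, h.wm_one, h.card_eq]

theorem ext_part {s t : Multiset (ℕ × ℚ)} (h : ∀ i, part s i = part t i) : s = t := by
  classical
  have key : ∀ (s : Multiset (ℕ × ℚ)) (i : ℕ) (x : ℚ),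
      (part s i).count x = s.count (i, x) := by
    intro s i x
    induction s using Multiset.induction_on with
    | empty => simp [part]
    | cons a s ih =>
      by_cases h1 : a.1 = i
      · have e : part (a ::ₘ s) i = a.2 ::ₘ part s i := by
          unfold part
          rw [Multiset.filter_cons_of_pos (p := fun b : ℕ × ℚ => b.1 = i) s h1, Multiset.map_cons]
        rw [e, Multiset.count_cons, Multiset.count_cons, ih]
        congr 1
        have : (x = a.2) ↔ ((i, x) = a) := by
          constructor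
          · intro h2
            exact Prod.ext h1.symm h2
          · intro h2
            rw [← h2]
        exact if_congr this rfl rfl
      · have e : part (a ::ₘ s) i = part s i := by
          unfold part
          rw [Multiset.filter_cons_of_neg (p := fun b : ℕ × ℚ => b.1 = i) s h1]
        have h2 : (i, x) ≠ a := by
          intro h3
          apply h1
          rw [← h3]
        rw [e, ih, Multiset.count_cons_of_ne h2]
  refine Multiset.ext.2 fun a => ?_
  rw [← key s a.1 a.2, ← key t a.1 a.2, h]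

/-- the defect, and ordinariness -/
theorem GAbove.two (h : GAbove s w) : mom 2 0 s ≤ mom 2 0 w ∧ (mom 2 0 s = mom 2 0 w → s = w) := by
  rw [mom_eq_wm, mom_eq_wm]
  have h1 := h.wm_two (G := fun _ => 1) (fun _ => zero_le_one)
  exact ⟨h1.1, fun h2 => ext_part fun i => h1.2 h2 i zero_lt_one⟩

end Pool.Agent.W5h2.OR
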