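import Mathlib
import Pool.Agent.W5h2.OR.Gr

/-!
# Products of two graded multisets
-/

set_option autoImplicit false
set_option linter.unusedSectionVars false

open Filter Topology

namespace Pool.Agent.W5h2.OR

theorem wm_conv (G : ℕ → ℝ) (s t : Multiset (ℕ × ℚ)) :
    wm G 2 (conv s t) = wm (fun i => wm (fun j => G (i + j)) 0 t) 2 s +
      2 * wm (fun i => wm (fun j => G (i + j)) 1 t) 1 s +
      (s.map fun a => wm (fun j => G (a.1 + j)) 2 t).sum := by
  have h1 : ∀ a : ℕ × ℚ, (t.map fun b => G (a + b).1 * (((a + b).2 : ℚ) : ℝ) ^ 2).sum =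
      wm (fun j => G (a.1 + j)) 0 t * (a.2 : ℝ) ^ 2 +
        2 * (wm (fun j => G (a.1 + j)) 1 t * (a.2 : ℝ) ^ 1) + wm (fun j => G (a.1 + j)) 2 t := by
    intro a
    unfold wm
    induction t using Multiset.induction_on with
    | empty => simp
    | cons b t ih =>
      rw [Multiset.map_cons, Multiset.sum_cons, ih, Multiset.map_cons, Multiset.sum_cons,
        Multiset.map_cons, Multiset.sum_cons, Multiset.map_cons, Multiset.sum_cons, Prod.fst_add,
        Prod.snd_add]
      push_cast
      ring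
  have h2 : wm G 2 (conv s t) = (s.map fun a =>
      (t.map fun b => G (a + b).1 * (((a + b).2 : ℚ) : ℝ) ^ 2).sum).sum := by
    unfold wm
    rw [conv_sum]
  rw [h2]
  simp_rw [h1]
  unfold wm
  rw [Multiset.sum_map_add, Multiset.sum_map_add, Multiset.sum_map_mul_left]

theorem wm_swap (G : ℕ → ℝ) (s t : Multiset (ℕ × ℚ)) :
    (s.map fun a => wm (fun j => G (a.1 + j)) 2 t).sum =
      wm (fun j => wm (fun i => G (i + j)) 0 s) 2 t := by
  unfold wm
  induction s using Multiset.induction_on with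
  | empty => simp
  | cons a s ih =>
    rw [Multiset.map_cons, Multiset.sum_cons, ih, ← Multiset.sum_map_add]
    congr 1
    refine Multiset.map_congr rfl fun b _ => ?_
    dsimp only
    rw [Multiset.map_cons, Multiset.sum_cons]
    ring

variable {s w s' w' : Multiset (ℕ × ℚ)}

theorem wm_zero_nonneg {G : ℕ → ℝ} (hG : ∀ i, 0 ≤ G i) (s : Multiset (ℕ × ℚ)) : 0 ≤ wm G 0 s := by
  unfold wm
  refine Multiset.sum_nonneg fun x hx => ?_
  obtain ⟨a, -, rfl⟩ := Multiset.mem_map.1 hx
  simpa using hG a.1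

theorem wm_zero_pos {G : ℕ → ℝ} (hG : ∀ i, 0 ≤ G i) {s : Multiset (ℕ × ℚ)} {i : ℕ}
    (hs : part s i ≠ 0) (hi : 0 < G i) : 0 < wm G 0 s := by
  obtain ⟨x, hx⟩ := Multiset.exists_mem_of_ne_zero hs
  unfold part at hx
  obtain ⟨a, ha, -⟩ := Multiset.mem_map.1 hx
  obtain ⟨ha, hai⟩ := Multiset.mem_filter.1 ha
  obtain ⟨t, rfl⟩ := Multiset.exists_cons_of_mem ha
  have h1 := wm_zero_nonneg hG t
  unfold wm at h1 ⊢
  rw [Multiset.map_cons, Multiset.sum_cons, pow_zero, mul_one, hai]
  linarith

theorem wm_indicator (s : Multiset (ℕ × ℚ)) (N : ℕ) :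
    wm (fun i => if i = N then 1 else 0) 2 s = ((squares (part s N) : ℚ) : ℝ) := by
  rw [← cast_squares]
  unfold wm
  induction s using Multiset.induction_on with
  | empty => simp [part]
  | cons a s ih =>
    rw [Multiset.map_cons, Multiset.sum_cons, ih]
    unfold part
    by_cases h : a.1 = N
    · rw [Multiset.filter_cons_of_pos (p := fun b : ℕ × ℚ => b.1 = N) s h, Multiset.map_cons,
        Multiset.map_cons, Multiset.sum_cons]
      dsimp only
      rw [if_pos h, one_mul]
    · rw [Multiset.filter_cons_of_neg (p := fun b : ℕ × ℚ => b.1 = N) s h]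
      dsimp only
      rw [if_neg h, zero_mul, zero_add]

/-- If a part of the product is ordinary then so are the parts of the factors. -/
theorem pair (h : GAbove s w) (h' : GAbove s' w') {i j : ℕ} (hi : part w i ≠ 0)
    (hj : part w' j ≠ 0) (he : part (conv s s') (i + j) = part (conv w w') (i + j)) :
    part s i = part w i ∧ part s' j = part w' j := by
  set G : ℕ → ℝ := fun k => if k = i + j then 1 else 0 with hGdef
  have hG : ∀ k, 0 ≤ G k := by
    intro k
    rw [hGdef]
    dsimp only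
    split_ifs
    · exact zero_le_one
    · exact le_rfl
  have e1 : wm G 2 (conv s s') = wm G 2 (conv w w') := by
    rw [hGdef, wm_indicator, wm_indicator, he]
  rw [wm_conv, wm_conv, wm_swap, wm_swap] at e1
  have e2 : (fun i => wm (fun j => G (i + j)) 0 s') = fun i => wm (fun j => G (i + j)) 0 w' :=
    funext fun i => h'.wm_zero _
  have e3 : (fun i => wm (fun j => G (i + j)) 1 s') = fun i => wm (fun j => G (i + j)) 1 w' :=
    funext fun i => h'.wm_one _
  have e4 : (fun j => wm (fun i => G (i + j)) 0 s) = fun j => wm (fun i => G (i + j)) 0 w :=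
    funext fun j => h.wm_zero _
  rw [e2, e3, e4, h.wm_one] at e1
  have p1 := h.wm_two (G := fun i => wm (fun j => G (i + j)) 0 w')
    (fun i => wm_zero_nonneg (fun j => hG _) w')
  have p2 := h'.wm_two (G := fun j => wm (fun i => G (i + j)) 0 w)
    (fun j => wm_zero_nonneg (fun i => hG _) w)
  have q1 := p1.2 (by linarith [p1.1, p2.1])
  have q2 := p2.2 (by linarith [p1.1, p2.1])
  have hGij : 0 < G (i + j) := by
    rw [hGdef]
    simp
  exact ⟨q1 i (wm_zero_pos (fun j => hG _) hj hGij), q2 j (wm_zero_pos (fun i => hG _) hi hGij)⟩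

theorem part_conv_ne_zero {i j : ℕ} (hi : part w i ≠ 0) (hj : part w' j ≠ 0) :
    part (conv w w') (i + j) ≠ 0 := by
  obtain ⟨x, hx⟩ := Multiset.exists_mem_of_ne_zero hi
  obtain ⟨y, hy⟩ := Multiset.exists_mem_of_ne_zero hj
  unfold part at hx hy
  obtain ⟨a, ha, -⟩ := Multiset.mem_map.1 hx
  obtain ⟨b, hb, -⟩ := Multiset.mem_map.1 hy
  obtain ⟨ha, hai⟩ := Multiset.mem_filter.1 ha
  obtain ⟨hb, hbj⟩ := Multiset.mem_filter.1 hb
  have h1 : a + b ∈ conv w w' := by
    unfold conv
    exact Multiset.mem_bind.2 ⟨a, ha, Multiset.mem_map.2 ⟨b, hb, rfl⟩⟩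
  have h2 : (a + b).2 ∈ part (conv w w') (i + j) := by
    unfold part
    refine Multiset.mem_map.2 ⟨a + b, Multiset.mem_filter.2 ⟨h1, ?_⟩, rfl⟩
    rw [Prod.fst_add, hai, hbj]
  intro h3
  rw [h3] at h2
  exact Multiset.notMem_zero _ h2

end Pool.Agent.W5h2.OR
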