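import Mathlib
import Pool.Agent.W5h2.OR.Pair

/-!
# Powers of a graded multiset
-/

set_option autoImplicit false
set_option linter.unusedSectionVars false

open Filter Topology

namespace Pool.Agent.W5h2.OR

variable {s w : Multiset (ℕ × ℚ)}

/-- the mean -/
noncomputable def mean (w : Multiset (ℕ × ℚ)) : ℝ := mom 1 0 w / w.card

theorem mom_one_mean (hw : w ≠ 0) : mom 1 (mean w) w = 0 := by
  have h : (w.card : ℝ) ≠ 0 := by
    have : w.card ≠ 0 := fun h => hw (Multiset.card_eq_zero.1 h)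
    exact_mod_cast this
  rw [mom_one_c, mean, div_mul_cancel₀ _ h, sub_self]

theorem mom_two_sub (h1 : s.card = w.card) (h2 : mom 1 0 s = mom 1 0 w) (c : ℝ) :
    mom 2 c w - mom 2 c s = mom 2 0 w - mom 2 0 s := by
  rw [mom_two_c c w, mom_two_c c s, h1, h2]
  ring

/-- The defect of a power. -/
theorem defect_cpow (hw : w ≠ 0) (h : GAbove s w) (n : ℕ) :
    mom 2 0 (cpow w n) - mom 2 0 (cpow s n) =
      (n + 1) * w.card ^ n * (mom 2 0 w - mom 2 0 s) := by
  have c1 : mom 1 (mean w) w = 0 := mom_one_mean hw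
  have c2 : mom 1 (mean w) s = 0 := by rw [h.mom_one, c1]
  have k1 : (cpow s n).card = (cpow w n).card := by rw [card_cpow, card_cpow, h.card_eq]
  have k2 : mom 1 0 (cpow s n) = mom 1 0 (cpow w n) := by
    have e1 := mom_one_cpow c1 n
    have e2 := mom_one_cpow c2 n
    rw [mom_one_c] at e1 e2
    rw [k1] at e2
    linarith
  rw [← mom_two_sub k1 k2 ((n + 1) * mean w), mom_two_cpow c1, mom_two_cpow c2, h.card_eq,
    ← mom_two_sub h.card_eq (h.mom_one 0) (mean w)]
  ring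

/-- Cauchy-Schwarz -/
theorem cauchy (R : Multiset ℚ) (C : ℝ) :
    (R.map fun x : ℚ => ((x : ℝ) - C) ^ 2).sum ^ 2 ≤
      R.card * (R.map fun x : ℚ => ((x : ℝ) - C) ^ 4).sum := by
  induction R using Multiset.induction_on with
  | empty => simp
  | cons x R ih =>
    rw [Multiset.map_cons, Multiset.sum_cons, Multiset.map_cons, Multiset.sum_cons,
      Multiset.card_cons]
    set y := ((x : ℝ) - C) with hy
    set A := (R.map fun x : ℚ => ((x : ℝ) - C) ^ 2).sum with hA
    set B := (R.map fun x : ℚ => ((x : ℝ) - C) ^ 4).sum with hB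
    push_cast
    have h1 : 2 * y ^ 2 * A ≤ R.card * y ^ 4 + B := by
      have h2 : 0 ≤ (R.map fun x : ℚ => (y ^ 2 - ((x : ℝ) - C) ^ 2) ^ 2).sum :=
        Multiset.sum_nonneg (by
          intro z hz
          obtain ⟨a, -, rfl⟩ := Multiset.mem_map.1 hz
          positivity)
      have h3 : (R.map fun x : ℚ => (y ^ 2 - ((x : ℝ) - C) ^ 2) ^ 2).sum =
          R.card * y ^ 4 - 2 * y ^ 2 * A + B := by
        rw [hA, hB]
        clear_value y
        clear ih h2 hA hB A B
        induction R using Multiset.induction_on with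
        | empty => simp
        | cons z R ih2 =>
          rw [Multiset.map_cons, Multiset.sum_cons, ih2, Multiset.map_cons, Multiset.sum_cons,
            Multiset.map_cons, Multiset.sum_cons, Multiset.card_cons]
          push_cast
          ring
      linarith
    nlinarith

theorem sum_map_inter (f : ℚ → ℝ) (A B : Multiset ℚ) :
    (A.map f).sum - (B.map f).sum = ((A - B).map f).sum - ((B - A).map f).sum := by
  have h1 : A - B + A ∩ B = A := Multiset.sub_add_inter A B
  have h2 : B - A + B ∩ A = B := Multiset.sub_add_inter B A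
  have h3 : (A.map f).sum = ((A - B).map f).sum + ((A ∩ B).map f).sum := by
    conv_lhs => rw [← h1]
    rw [Multiset.map_add, Multiset.sum_add]
  have h4 : (B.map f).sum = ((B - A).map f).sum + ((A ∩ B).map f).sum := by
    conv_lhs => rw [← h2]
    rw [Multiset.map_add, Multiset.sum_add, Multiset.inter_comm]
  rw [h3, h4]
  ring

theorem sum_map_sub_le (f : ℚ → ℝ) (hf : ∀ x, 0 ≤ f x) (A B : Multiset ℚ) :
    ((A - B).map f).sum ≤ (A.map f).sum := by
  have h1 : A - B + A ∩ B = A := Multiset.sub_add_inter A B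
  conv_rhs => rw [← h1]
  rw [Multiset.map_add, Multiset.sum_add]
  have h2 : 0 ≤ ((A ∩ B).map f).sum := Multiset.sum_nonneg (by
    intro z hz
    obtain ⟨a, -, rfl⟩ := Multiset.mem_map.1 hz
    exact hf a)
  linarith

theorem mom_snd (k : ℕ) (c : ℝ) (s : Multiset (ℕ × ℚ)) :
    mom k c s = ((s.map Prod.snd).map fun x : ℚ => ((x : ℝ) - c) ^ k).sum := by
  unfold mom
  rw [Multiset.map_map]
  rfl

/-- A large defect implies many wrong slopes. -/
theorem defect_sq_le (c : ℝ) (h : 0 ≤ mom 2 c w - mom 2 c s) :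
    (mom 2 c w - mom 2 c s) ^ 2 ≤
      ((w.map Prod.snd - s.map Prod.snd).card : ℝ) * mom 4 c w := by
  set W := w.map Prod.snd with hW
  set S := s.map Prod.snd with hS
  have h1 : mom 2 c w - mom 2 c s ≤ ((W - S).map fun x : ℚ => ((x : ℝ) - c) ^ 2).sum := by
    rw [mom_snd, mom_snd, ← hW, ← hS, sum_map_inter]
    have : 0 ≤ ((S - W).map fun x : ℚ => ((x : ℝ) - c) ^ 2).sum := Multiset.sum_nonneg (by
      intro z hz
      obtain ⟨a, -, rfl⟩ := Multiset.mem_map.1 hz
      positivity)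
    linarith
  have h2 := cauchy (W - S) c
  have h3 : ((W - S).map fun x : ℚ => ((x : ℝ) - c) ^ 4).sum ≤ mom 4 c w := by
    rw [mom_snd, ← hW]
    exact sum_map_sub_le _ (fun x => by positivity) W S
  calc (mom 2 c w - mom 2 c s) ^ 2 ≤ ((W - S).map fun x : ℚ => ((x : ℝ) - c) ^ 2).sum ^ 2 :=
        pow_le_pow_left₀ h h1 2
    _ ≤ ((W - S).card : ℝ) * ((W - S).map fun x : ℚ => ((x : ℝ) - c) ^ 4).sum := h2
    _ ≤ _ := mul_le_mul_of_nonneg_left h3 (Nat.cast_nonneg _)

/-- the constant in the estimate of the number of wrong slopes -/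
noncomputable def kap (w : Multiset (ℕ × ℚ)) : ℝ :=
  w.card * mom 4 (mean w) w + 3 * mom 2 (mean w) w ^ 2

theorem kap_nonneg (w : Multiset (ℕ × ℚ)) : 0 ≤ kap w := by
  have hm4 : 0 ≤ mom 4 (mean w) w := by
    unfold mom
    exact Multiset.sum_nonneg (by
      intro x hx
      obtain ⟨a, -, rfl⟩ := Multiset.mem_map.1 hx
      positivity)
  unfold kap
  positivity

/-- The number of wrong slopes of a power. -/
theorem wrong_cpow (hw : w ≠ 0) (h : GAbove s w) (n : ℕ) :
    (w.card : ℝ) ^ (n + 1) * (mom 2 0 w - mom 2 0 s) ^ 2 ≤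
      (((cpow w n).map Prod.snd - (cpow s n).map Prod.snd).card : ℝ) * kap w := by
  have c1 : mom 1 (mean w) w = 0 := mom_one_mean hw
  have hb : (0 : ℝ) < w.card := by
    have : 0 < w.card := Multiset.card_pos.2 hw
    exact_mod_cast this
  have c2 : mom 1 (mean w) s = 0 := by rw [h.mom_one, c1]
  have k1 : (cpow s n).card = (cpow w n).card := by rw [card_cpow, card_cpow, h.card_eq]
  have k2 : mom 1 0 (cpow s n) = mom 1 0 (cpow w n) := by
    have e1 := mom_one_cpow c1 n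
    have e2 := mom_one_cpow c2 n
    rw [mom_one_c] at e1 e2
    rw [k1] at e2
    linarith
  have d1 := defect_cpow hw h n
  have d0 : 0 ≤ mom 2 0 w - mom 2 0 s := by
    have := h.two.1
    linarith
  have d2 := mom_two_sub k1 k2 ((n + 1) * mean w)
  have d3 : mom 2 ((n + 1) * mean w) (cpow w n) - mom 2 ((n + 1) * mean w) (cpow s n) =
      (n + 1) * w.card ^ n * (mom 2 0 w - mom 2 0 s) := by rw [d2, d1]
  have d4 := defect_sq_le (w := cpow w n) (s := cpow s n) ((n + 1) * mean w)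
    (by rw [d3]; positivity)
  rw [d3] at d4
  have d5 := mom_four_cpow c1 n
  set r : ℝ := (((cpow w n).map Prod.snd - (cpow s n).map Prod.snd).card : ℝ) with hr
  have hr0 : 0 ≤ r := Nat.cast_nonneg _
  set D := mom 2 0 w - mom 2 0 s with hD
  have d6 : (w.card : ℝ) * (((n : ℝ) + 1) * w.card ^ n * D) ^ 2 ≤
      r * ((n + 1) ^ 2 * (w.card ^ n * kap w)) := by
    calc (w.card : ℝ) * (((n : ℝ) + 1) * w.card ^ n * D) ^ 2 ≤
        w.card * (r * mom 4 ((n + 1) * mean w) (cpow w n)) := mul_le_mul_of_nonneg_left d4 hb.le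
      _ = r * (w.card * mom 4 ((n + 1) * mean w) (cpow w n)) := by ring
      _ ≤ _ := mul_le_mul_of_nonneg_left d5 hr0
  have hp : (0 : ℝ) < ((n : ℝ) + 1) ^ 2 * w.card ^ n := by positivity
  have d7 : ((n : ℝ) + 1) ^ 2 * w.card ^ n * ((w.card : ℝ) ^ (n + 1) * D ^ 2) ≤
      ((n : ℝ) + 1) ^ 2 * w.card ^ n * (r * kap w) := by
    calc ((n : ℝ) + 1) ^ 2 * w.card ^ n * ((w.card : ℝ) ^ (n + 1) * D ^ 2) =
        (w.card : ℝ) * (((n : ℝ) + 1) * w.card ^ n * D) ^ 2 := by ring
      _ ≤ r * ((n + 1) ^ 2 * (w.card ^ n * kap w)) := d6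
      _ = _ := by ring
  exact le_of_mul_le_mul_left d7 hp

/-- Discreteness of the defect. -/
theorem discrete {M : ℕ} (hs : ∀ a ∈ s, ∃ z : ℤ, M * a.2 = z)
    (hw : ∀ a ∈ w, ∃ z : ℤ, a.2 = z) :
    ∃ z : ℤ, (M : ℝ) ^ 2 * (mom 2 0 w - mom 2 0 s) = z := by
  have h1 : ∀ t : Multiset (ℕ × ℚ), (∀ a ∈ t, ∃ z : ℤ, M * a.2 = z) →
      ∃ z : ℤ, (M : ℝ) ^ 2 * mom 2 0 t = z := by
    intro t
    induction t using Multiset.induction_on with
    | empty => intro _; exact ⟨0, by simp [mom]⟩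
    | cons a t ih =>
      intro h
      obtain ⟨z, hz⟩ := ih fun b hb => h b (Multiset.mem_cons_of_mem hb)
      obtain ⟨z', hz'⟩ := h a (Multiset.mem_cons_self a t)
      refine ⟨z' ^ 2 + z, ?_⟩
      have hz'' : (M : ℝ) * (a.2 : ℝ) = z' := by exact_mod_cast hz'
      unfold mom at hz ⊢
      rw [Multiset.map_cons, Multiset.sum_cons, mul_add, hz, sub_zero, ← mul_pow, hz'']
      push_cast
      ring
  obtain ⟨z, hz⟩ := h1 s hs
  obtain ⟨z', hz'⟩ := h1 w (by
    intro a ha
    obtain ⟨y, hy⟩ := hw a ha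
    refine ⟨M * y, ?_⟩
    rw [hy]
    push_cast
    ring)
  refine ⟨z' - z, ?_⟩
  rw [mul_sub, hz, hz']
  push_cast
  ring

/-- If the defect is small then `s = w`. -/
theorem eq_of_small {M : ℕ} (hM : 0 < M) (hs : ∀ a ∈ s, ∃ z : ℤ, M * a.2 = z)
    (hw : ∀ a ∈ w, ∃ z : ℤ, a.2 = z) (h : GAbove s w)
    (hsmall : (M : ℝ) ^ 2 * (mom 2 0 w - mom 2 0 s) < 1) : s = w := by
  obtain ⟨z, hz⟩ := discrete hs hw
  have d0 : 0 ≤ mom 2 0 w - mom 2 0 s := by
    have := h.two.1
    linarith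
  have hM' : (0 : ℝ) < (M : ℝ) ^ 2 := by
    have : (0 : ℝ) < M := by exact_mod_cast hM
    positivity
  have h1 : 0 ≤ (M : ℝ) ^ 2 * (mom 2 0 w - mom 2 0 s) := mul_nonneg hM'.le d0
  rw [hz] at h1 hsmall
  have h2 : z = 0 := by
    have a1 : (0 : ℤ) ≤ z := by exact_mod_cast h1
    have a2 : z < 1 := by exact_mod_cast hsmall
    omega
  rw [h2] at hz
  have h3 : mom 2 0 w - mom 2 0 s = 0 := by
    rcases mul_eq_zero.1 (hz.trans Int.cast_zero) with h4 | h4
    · exact absurd h4 hM'.ne'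
    · exact h4
  exact h.two.2 (by linarith)

end Pool.Agent.W5h2.OR
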