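import Mathlib
import Pool.Agent.W5h2.OR.Pw

/-!
# The distance of two polygons
-/

set_option autoImplicit false
set_option linter.unusedSectionVars false

open Filter Topology

namespace Pool.Agent.W5h2.OR

theorem abel_abs {n : ℕ} {u d : ℕ → ℝ} (hu : Monotone u) {c : ℝ}
    (hc : ∀ m ≤ n, |∑ i ∈ Finset.range m, d i| ≤ c) :
    ∀ m, m + 1 ≤ n → ∑ i ∈ Finset.range (m + 1), u i * d i ≤
      u m * (∑ i ∈ Finset.range (m + 1), d i) + c * (u m - u 0) := by
  intro m
  induction m with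
  | zero => intro _; simp
  | succ m ih =>
    intro hm
    have h1 := ih (by omega)
    rw [Finset.sum_range_succ _ (m + 1), Finset.sum_range_succ _ (m + 1)]
    have h2 := (abs_le.1 (hc (m + 1) (by omega))).1
    have h3 : u m ≤ u (m + 1) := hu (Nat.le_succ m)
    nlinarith

/-- Polygons at a small distance have a small defect. -/
theorem Near.squares_le {c R : ℝ} {s w : Multiset ℚ} (h : Near c s w) (hsum : s.sum = w.sum)
    (hR : 0 ≤ R) (hs : ∀ x ∈ s, |(x : ℝ)| ≤ R) (hw : ∀ x ∈ w, |(x : ℝ)| ≤ R) :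
    ((squares w : ℚ) : ℝ) - ((squares s : ℚ) : ℝ) ≤ 4 * c * R := by
  obtain ⟨n, a, b, ha, hb, rfl, rfl, hp⟩ := h
  have h1 : ∀ f : ℕ → ℚ, squares ((Multiset.range n).map f) = ∑ i ∈ Finset.range n, f i ^ 2 := by
    intro f
    rw [squares, Multiset.map_map]
    rfl
  rw [h1, h1]
  have hc : 0 ≤ c := by
    have := hp 0 (Nat.zero_le n)
    simpa using this
  have hsum' : ∑ i ∈ Finset.range n, (b i - a i) = 0 := by
    have e : ∑ i ∈ Finset.range n, a i = ∑ i ∈ Finset.range n, b i := hsum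
    rw [Finset.sum_sub_distrib, e, sub_self]
  rcases n with _ | n
  · simp
    positivity
  · have hu : Monotone fun i => ((a i + b i : ℚ) : ℝ) := by
      intro i j hij
      have := add_le_add (ha hij) (hb hij)
      dsimp only
      exact_mod_cast this
    have hd : ∀ m ≤ n + 1, |∑ i ∈ Finset.range m, ((b i - a i : ℚ) : ℝ)| ≤ c := by
      intro m hm
      have h2 := hp m hm
      have e : ∑ i ∈ Finset.range m, ((b i - a i : ℚ) : ℝ) =
          -((∑ i ∈ Finset.range m, a i - ∑ i ∈ Finset.range m, b i : ℚ) : ℝ) := by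
        rw [← Finset.sum_sub_distrib]
        push_cast
        rw [← Finset.sum_neg_distrib]
        exact Finset.sum_congr rfl fun i _ => by ring
      rw [e, abs_neg]
      exact_mod_cast h2
    have h3 := abel_abs hu hd n le_rfl
    have e1 : ∑ i ∈ Finset.range (n + 1), ((b i - a i : ℚ) : ℝ) = 0 := by
      rw [← Rat.cast_sum, hsum', Rat.cast_zero]
    rw [e1, mul_zero, zero_add] at h3
    have e2 : ∑ i ∈ Finset.range (n + 1), ((a i + b i : ℚ) : ℝ) * ((b i - a i : ℚ) : ℝ) =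
        ((∑ i ∈ Finset.range (n + 1), b i ^ 2 : ℚ) : ℝ) -
          ((∑ i ∈ Finset.range (n + 1), a i ^ 2 : ℚ) : ℝ) := by
      rw [← Rat.cast_sub, ← Finset.sum_sub_distrib]
      push_cast
      exact Finset.sum_congr rfl fun i _ => by ring
    rw [e2] at h3
    have mem : ∀ (f : ℕ → ℚ) (i : ℕ), i < n + 1 → f i ∈ (Multiset.range (n + 1)).map f :=
      fun f i hi => Multiset.mem_map.2 ⟨i, Multiset.mem_range.2 hi, rfl⟩
    have b1 := abs_le.1 (hs _ (mem a n (Nat.lt_succ_self n)))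
    have b2 := abs_le.1 (hw _ (mem b n (Nat.lt_succ_self n)))
    have b3 := abs_le.1 (hs _ (mem a 0 (Nat.succ_pos n)))
    have b4 := abs_le.1 (hw _ (mem b 0 (Nat.succ_pos n)))
    have h4 : ((a n + b n : ℚ) : ℝ) - ((a 0 + b 0 : ℚ) : ℝ) ≤ 4 * R := by
      push_cast
      linarith [b1.2, b2.2, b3.1, b4.1]
    calc _ ≤ c * (((a n + b n : ℚ) : ℝ) - ((a 0 + b 0 : ℚ) : ℝ)) := h3
      _ ≤ c * (4 * R) := mul_le_mul_of_nonneg_left h4 hc
      _ = 4 * c * R := by ring

theorem exists_sorted : ∀ (n : ℕ) (s : Multiset ℚ), s.card = n →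
    ∃ a : ℕ → ℚ, Monotone a ∧ s = (Multiset.range n).map a := by
  intro n
  induction n with
  | zero =>
    intro s hs
    exact ⟨fun _ => 0, monotone_const, by simpa using hs⟩
  | succ n ih =>
    intro s hs
    have h0 : s.toFinset.Nonempty := by
      have : s ≠ 0 := by
        intro h
        rw [h] at hs
        simp at hs
      obtain ⟨x, hx⟩ := Multiset.exists_mem_of_ne_zero this
      exact ⟨x, Multiset.mem_toFinset.2 hx⟩
    obtain ⟨m, hm, hmax⟩ := Finset.exists_max_image s.toFinset id h0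
    obtain ⟨t, rfl⟩ := Multiset.exists_cons_of_mem (Multiset.mem_toFinset.1 hm)
    rw [Multiset.card_cons] at hs
    obtain ⟨a, ha, rfl⟩ := ih t (by omega)
    have hle : ∀ i < n, a i ≤ m := by
      intro i hi
      have := hmax (a i) (Multiset.mem_toFinset.2 (Multiset.mem_cons_of_mem
        (Multiset.mem_map.2 ⟨i, Multiset.mem_range.2 hi, rfl⟩)))
      exact this
    refine ⟨fun i => if i < n then a i else m, ?_, ?_⟩
    · intro i j hij
      dsimp only
      split_ifs with h1 h2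
      · exact ha hij
      · exact hle i h1
      · omega
      · exact le_rfl
    · rw [Multiset.range_succ, Multiset.map_cons]
      congr 1
      · simp
      · refine Multiset.map_congr rfl fun i hi => ?_
        rw [if_pos (Multiset.mem_range.1 hi)]

theorem near_self {c : ℝ} (hc : 0 ≤ c) (s : Multiset ℚ) : Near c s s := by
  obtain ⟨a, ha, h⟩ := exists_sorted s.card s rfl
  exact ⟨s.card, a, a, ha, ha, h, h, fun m _ => by simpa using hc⟩

theorem Above.bound {s w : Multiset ℚ} (h : Above s w) {R : ℝ} (hw : ∀ x ∈ w, |(x : ℝ)| ≤ R) :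
    ∀ x ∈ s, |(x : ℝ)| ≤ R := by
  obtain ⟨n, a, b, ha, hb, rfl, rfl, hp, he⟩ := h
  intro x hx
  obtain ⟨i, hi, rfl⟩ := Multiset.mem_map.1 hx
  rw [Multiset.mem_range] at hi
  have mem : ∀ (f : ℕ → ℚ) (i : ℕ), i < n → f i ∈ (Multiset.range n).map f :=
    fun f i hi => Multiset.mem_map.2 ⟨i, Multiset.mem_range.2 hi, rfl⟩
  obtain ⟨n, rfl⟩ : ∃ k, n = k + 1 := ⟨n - 1, by omega⟩
  have b2 := abs_le.1 (hw _ (mem b n (Nat.lt_succ_self n)))
  have b4 := abs_le.1 (hw _ (mem b 0 (Nat.succ_pos n)))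
  have h0 : b 0 ≤ a 0 := by
    have := hp 1 (by omega)
    simpa using this
  have h1 : a n ≤ b n := by
    have h2 := hp n (Nat.le_succ n)
    rw [Finset.sum_range_succ, Finset.sum_range_succ] at he
    linarith
  have h3 : a 0 ≤ a i := ha (Nat.zero_le i)
  have h4 : a i ≤ a n := ha (by omega)
  have k1 : (b 0 : ℝ) ≤ a i := by exact_mod_cast h0.trans h3
  have k2 : (a i : ℝ) ≤ b n := by exact_mod_cast h4.trans h1
  exact abs_le.2 ⟨by linarith [b4.1], by linarith [b2.2]⟩

variable {s w : Multiset (ℕ × ℚ)}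

theorem GAbove.bound (h : GAbove s w) {R : ℝ} (hw : ∀ a ∈ w, |(a.2 : ℝ)| ≤ R) :
    ∀ a ∈ s, |(a.2 : ℝ)| ≤ R := by
  intro a ha
  refine (h a.1).bound (R := R) (fun x hx => ?_) a.2 ?_
  · unfold part at hx
    obtain ⟨b, hb, rfl⟩ := Multiset.mem_map.1 hx
    exact hw b (Multiset.mem_filter.1 hb).1
  · unfold part
    exact Multiset.mem_map.2 ⟨a, Multiset.mem_filter.2 ⟨ha, rfl⟩, rfl⟩

theorem exists_abs_bound (w : Multiset (ℕ × ℚ)) : ∃ R : ℝ, 0 ≤ R ∧ ∀ a ∈ w, |(a.2 : ℝ)| ≤ R := by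
  induction w using Multiset.induction_on with
  | empty => exact ⟨0, le_rfl, by simp⟩
  | cons a w ih =>
    obtain ⟨R, hR0, hR⟩ := ih
    refine ⟨max R |(a.2 : ℝ)|, le_max_of_le_left hR0, fun b hb => ?_⟩
    rcases Multiset.mem_cons.1 hb with rfl | hb
    · exact le_max_right _ _
    · exact (hR b hb).trans (le_max_left _ _)

theorem cpow_bound {R : ℝ} (hs : ∀ a ∈ s, |(a.2 : ℝ)| ≤ R) (n : ℕ) :
    ∀ a ∈ cpow s n, |(a.2 : ℝ)| ≤ (n + 1) * R := by
  induction n with
  | zero => intro a ha; rw [Nat.cast_zero, zero_add, one_mul]; exact hs a ha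
  | succ n ih =>
    intro x hx
    unfold cpow conv at hx
    obtain ⟨a, ha, hx⟩ := Multiset.mem_bind.1 hx
    obtain ⟨b, hb, rfl⟩ := Multiset.mem_map.1 hx
    have h1 := hs a ha
    have h2 := ih b hb
    rw [Prod.snd_add]
    push_cast
    calc |(a.2 : ℝ) + b.2| ≤ |(a.2 : ℝ)| + |(b.2 : ℝ)| := abs_add_le _ _
      _ ≤ R + (n + 1) * R := add_le_add h1 h2
      _ = _ := by ring

theorem sum_snd (s : Multiset (ℕ × ℚ)) : (((s.map Prod.snd).sum : ℚ) : ℝ) = mom 1 0 s := by
  unfold mom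
  induction s using Multiset.induction_on with
  | empty => simp
  | cons a t ih =>
    rw [Multiset.map_cons, Multiset.sum_cons, Multiset.map_cons, Multiset.sum_cons, ← ih]
    push_cast
    ring

theorem squares_snd (s : Multiset (ℕ × ℚ)) : ((squares (s.map Prod.snd) : ℚ) : ℝ) = mom 2 0 s := by
  rw [← cast_squares, mom_snd]
  simp only [sub_zero]

/-- The defect of a power and the distance of its polygons. -/
theorem near_cpow (hw : w ≠ 0) (h : GAbove s w) {R : ℝ} (hR0 : 0 ≤ R)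
    (hR : ∀ a ∈ w, |(a.2 : ℝ)| ≤ R) (n : ℕ) {c : ℝ}
    (hn : Near c ((cpow s n).map Prod.snd) ((cpow w n).map Prod.snd)) :
    (w.card : ℝ) ^ n * (mom 2 0 w - mom 2 0 s) ≤ 4 * c * R := by
  have c1 : mom 1 (mean w) w = 0 := mom_one_mean hw
  have c2 : mom 1 (mean w) s = 0 := by rw [h.mom_one, c1]
  have k1 : (cpow s n).card = (cpow w n).card := by rw [card_cpow, card_cpow, h.card_eq]
  have k2 : mom 1 0 (cpow s n) = mom 1 0 (cpow w n) := by
    have e1 := mom_one_cpow c1 n
    have e2 := mom_one_cpow c2 n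
    rw [mom_one_c] at e1 e2
    rw [k1] at e2
    linarith
  have k3 : ((cpow s n).map Prod.snd).sum = ((cpow w n).map Prod.snd).sum := by
    have : ((((cpow s n).map Prod.snd).sum : ℚ) : ℝ) = ((((cpow w n).map Prod.snd).sum : ℚ) : ℝ) := by
      rw [sum_snd, sum_snd, k2]
    exact_mod_cast this
  have k4 := hn.squares_le (R := (n + 1) * R) k3 (by positivity)
    (by
      intro x hx
      obtain ⟨a, ha, rfl⟩ := Multiset.mem_map.1 hx
      exact cpow_bound (h.bound hR) n a ha)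
    (by
      intro x hx
      obtain ⟨a, ha, rfl⟩ := Multiset.mem_map.1 hx
      exact cpow_bound hR n a ha)
  rw [squares_snd, squares_snd, defect_cpow hw h] at k4
  have k5 : ((n : ℝ) + 1) * ((w.card : ℝ) ^ n * (mom 2 0 w - mom 2 0 s)) ≤
      ((n : ℝ) + 1) * (4 * c * R) := by
    calc _ = ((n : ℝ) + 1) * w.card ^ n * (mom 2 0 w - mom 2 0 s) := by ring
      _ ≤ 4 * c * (((n : ℝ) + 1) * R) := k4
      _ = _ := by ring
  exact le_of_mul_le_mul_left k5 (by positivity)

end Pool.Agent.W5h2.OR
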