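import Mathlib
import Pool.Agent.W5h2.OR.Def

/-!
# Large sets
-/

set_option autoImplicit false
set_option linter.unusedSectionVars false

open Filter Topology

namespace Pool.Agent.W5h2.OR

variable {ι : Type} {S : Set (Set ι)}

theorem Large.imp (hS : Large S) {p q : ι → Prop} (h : ∀ᶠ v in cofinite, p v → q v)
    (hp : {v | p v} ∈ S) : {v | q v} ∈ S := by
  refine hS.almost _ _ hp (Set.Finite.subset (Filter.eventually_cofinite.1 h) ?_)
  rintro v ⟨h1, h2⟩ h3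
  exact h2 (h3 h1)

theorem Large.of_eventually (hS : Large S) {q : ι → Prop} (h : ∀ᶠ v in cofinite, q v) :
    {v | q v} ∈ S := by
  refine hS.imp (p := fun _ => True) (h.mono fun v hv _ => hv) ?_
  have : {v : ι | True} = Set.univ := Set.eq_univ_of_forall fun v => trivial
  rw [this]
  exact hS.univ_mem

/-- the infinite sets -/
theorem large_infinite [Infinite ι] : Large {A : Set ι | A.Infinite} where
  univ_mem := Set.infinite_univ
  almost := by
    intro A B hA h hB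
    exact hA ((h.union hB).subset fun x hx => by
      by_cases h1 : x ∈ B
      · exact Or.inr h1
      · exact Or.inl ⟨hx, h1⟩)

theorem large_upperDensity {E : ℕ → Finset ι} {c : ℝ} (hc : c ≤ 1)
    (hE : Tendsto (fun x => (E x).card) atTop atTop) : Large (UpperDensity E c) where
  univ_mem := by
    intro ε hε
    refine Frequently.of_forall fun x => ?_
    have e : {v | v ∈ E x ∧ v ∈ (Set.univ : Set ι)} = (E x : Set ι) := by
      ext v
      simp
    rw [e, Set.ncard_coe_finset]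
    have : (0 : ℝ) ≤ (E x).card := Nat.cast_nonneg _
    nlinarith
  almost := by
    intro A B hA h ε hε
    have h1 : Tendsto (fun x => ((E x).card : ℝ)) atTop atTop :=
      tendsto_natCast_atTop_atTop.comp hE
    have h2 := h1.eventually_ge_atTop ((A \ B).ncard / (ε / 2))
    refine ((hA (ε / 2) (by positivity)).and_eventually h2).mono fun x hx => ?_
    obtain ⟨hx1, hx2⟩ := hx
    rw [div_le_iff₀ (by positivity)] at hx2
    have h3 : ({v | v ∈ E x ∧ v ∈ A} : Set ι).ncard ≤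
        ({v | v ∈ E x ∧ v ∈ B} : Set ι).ncard + (A \ B).ncard := by
      refine le_trans (Set.ncard_le_ncard (t := {v | v ∈ E x ∧ v ∈ B} ∪ (A \ B)) ?_ ?_)
        (Set.ncard_union_le _ _)
      · rintro v ⟨hv1, hv2⟩
        by_cases h4 : v ∈ B
        · exact Or.inl ⟨hv1, h4⟩
        · exact Or.inr ⟨hv2, h4⟩
      · exact ((E x).finite_toSet.subset fun v hv => hv.1).union h
    have h4 : (({v | v ∈ E x ∧ v ∈ A} : Set ι).ncard : ℝ) ≤
        ({v | v ∈ E x ∧ v ∈ B} : Set ι).ncard + (A \ B).ncard := by exact_mod_cast h3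
    nlinarith

/-- largeness is witnessed by finite sets -/
def Witnessed (S : Set (Set ι)) : Prop :=
  ∃ F : ℕ → Set (Set ι), (∀ m, ∀ B ∈ F m, B.Finite) ∧ ∀ A, A ∈ S ↔ ∀ m, ∃ B ∈ F m, B ⊆ A

theorem witnessed_infinite : Witnessed {A : Set ι | A.Infinite} := by
  refine ⟨fun m => {B | B.Finite ∧ B.ncard = m}, fun m B hB => hB.1, fun A => ⟨fun hA m => ?_,
    fun h hA => ?_⟩⟩
  · obtain ⟨t, ht, hm⟩ := Set.Infinite.exists_subset_card_eq hA m
    refine ⟨t, ⟨t.finite_toSet, ?_⟩, ht⟩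
    rw [Set.ncard_coe_finset, hm]
  · obtain ⟨B, ⟨hB1, hB2⟩, hB3⟩ := h (A.ncard + 1)
    have := Set.ncard_le_ncard hB3 hA
    omega

theorem witnessed_upperDensity (E : ℕ → Finset ι) (c : ℝ) : Witnessed (UpperDensity E c) := by
  refine ⟨fun m => {B | B.Finite ∧ ∃ x, m ≤ x ∧
    (c - 1 / ((m : ℝ) + 1)) * (E x).card ≤ ({v | v ∈ E x ∧ v ∈ B} : Set ι).ncard},
    fun m B hB => hB.1, fun A => ⟨fun hA m => ?_, fun h ε hε => ?_⟩⟩
  · obtain ⟨x, hx, h1⟩ := (frequently_atTop.1 (hA (1 / ((m : ℝ) + 1)) (by positivity))) m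
    refine ⟨{v | v ∈ E x ∧ v ∈ A}, ⟨(E x).finite_toSet.subset fun v hv => hv.1, x, hx, ?_⟩,
      fun v hv => hv.2⟩
    have e : {v | v ∈ E x ∧ v ∈ {v | v ∈ E x ∧ v ∈ A}} = {v | v ∈ E x ∧ v ∈ A} := by
      ext v
      simp
    rw [e]
    exact h1
  · refine frequently_atTop.2 fun N => ?_
    obtain ⟨m, hm⟩ := exists_nat_gt (1 / ε)
    obtain ⟨B, ⟨hB1, x, hx, hB2⟩, hB3⟩ := h (max m N)
    refine ⟨x, (le_max_right m N).trans hx, ?_⟩
    have h1 : 1 / (((max m N : ℕ) : ℝ) + 1) ≤ ε := by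
      rw [div_lt_iff₀ hε] at hm
      rw [div_le_iff₀ (by positivity)]
      have : (m : ℝ) ≤ ((max m N : ℕ) : ℝ) := by exact_mod_cast le_max_left m N
      nlinarith
    have h2 : ({v | v ∈ E x ∧ v ∈ B} : Set ι).ncard ≤ ({v | v ∈ E x ∧ v ∈ A} : Set ι).ncard :=
      Set.ncard_le_ncard (fun v hv => ⟨hv.1, hB3 hv.2⟩)
        ((E x).finite_toSet.subset fun v hv => hv.1)
    have h3 : (({v | v ∈ E x ∧ v ∈ B} : Set ι).ncard : ℝ) ≤
        ({v | v ∈ E x ∧ v ∈ A} : Set ι).ncard := by exact_mod_cast h2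
    have h4 : (0 : ℝ) ≤ (E x).card := Nat.cast_nonneg _
    nlinarith

theorem Witnessed.exists_pseudo (hS : Witnessed S) (A : ℕ → Set ι)
    (hA : ∀ k, {v | ∀ j ≤ k, v ∈ A j} ∈ S) : ∃ P ∈ S, ∀ k, (P \ A k).Finite := by
  obtain ⟨F, hF, hS⟩ := hS
  have h1 : ∀ k, ∃ B ∈ F k, B ⊆ {v | ∀ j ≤ k, v ∈ A j} := fun k => (hS _).1 (hA k) k
  choose B hB1 hB2 using h1
  refine ⟨⋃ k, B k, (hS _).2 fun m => ⟨B m, hB1 m, Set.subset_iUnion B m⟩, fun k => ?_⟩
  refine Set.Finite.subset (s := ⋃ j ∈ Finset.range k, B j)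
    (Set.Finite.biUnion (Finset.finite_toSet _) fun j _ => hF j _ (hB1 j)) ?_
  rintro v ⟨hv1, hv2⟩
  obtain ⟨j, hj⟩ := Set.mem_iUnion.1 hv1
  have h2 : j < k := by
    by_contra h3
    exact hv2 (hB2 j hj k (not_lt.1 h3))
  exact Set.mem_biUnion (Finset.mem_coe.2 (Finset.mem_range.2 h2)) hj

end Pool.Agent.W5h2.OR
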