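import Mathlib
import Pool.Agent.W5h2.OR.Gap
import Pool.Agent.W5h2.OR.Univ

/-!
# Amplification of weak ordinariness
-/

set_option autoImplicit false
set_option linter.unusedSectionVars false

open Filter Topology

namespace Pool.Agent.W5h2.OR

variable {ι Var : Type} (T : Slopes ι Var) {S : Set (Set ι)}

theorem weights_pow (X : Var) (n : ℕ) : T.weights (T.pow X n) = cpow (T.weights X) n := by
  induction n with
  | zero => rfl
  | succ n ih => rw [Slopes.pow, T.weights_prod, ih]; rfl

theorem slopes_pow (X : Var) (n : ℕ) :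
    ∀ᶠ v in cofinite, T.slopes (T.pow X n) v = cpow (T.slopes X v) n := by
  induction n with
  | zero => exact Eventually.of_forall fun v => rfl
  | succ n ih =>
    filter_upwards [ih, T.slopes_prod X (T.pow X n)] with v h1 h2
    rw [Slopes.pow, h2, h1]
    rfl

theorem deg_pow (X : Var) (n : ℕ) : T.deg (T.pow X n) = T.deg X ^ (n + 1) := by
  unfold Slopes.deg
  rw [weights_pow, card_cpow]

theorem dim_pow (X : Var) (n : ℕ) : T.dim (T.pow X n) = (n + 1) * T.dim X := by
  induction n with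
  | zero => simp [Slopes.pow]
  | succ n ih => rw [Slopes.pow, T.dim_prod, ih]; ring

theorem deg_pos (X : Var) : (0 : ℝ) < T.deg X := by
  have : 0 < (T.weights X).card := Multiset.card_pos.2 (T.nz X)
  exact_mod_cast this

theorem sum_cast (t : Multiset (ℕ × ℚ)) :
    (((t.map fun a => a.2 ^ 2).sum : ℚ) : ℝ) = mom 2 0 t := by
  unfold mom
  induction t using Multiset.induction_on with
  | empty => simp
  | cons a t ih =>
    rw [Multiset.map_cons, Multiset.sum_cons, Multiset.map_cons, Multiset.sum_cons, ← ih]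
    push_cast
    ring

theorem defect_cast (X : Var) (v : ι) :
    (T.defect X v : ℝ) = mom 2 0 (T.weights X) - mom 2 0 (T.slopes X v) := by
  unfold Slopes.defect
  push_cast
  rw [← sum_cast, ← sum_cast]
  push_cast
  rfl

/-- the good `v` -/
structure Good (X : Var) (n : ℕ) (M : ℕ) (v : ι) : Prop where
  above : GAbove (T.slopes X v) (T.weights X)
  slopes_pow : T.slopes (T.pow X n) v = cpow (T.slopes X v) n
  denom : ∀ a ∈ T.slopes X v, ∃ z : ℤ, M * a.2 = z

theorem exists_good (X : Var) : ∃ M : ℕ, 0 < M ∧ ∀ n, ∀ᶠ v in cofinite, Good T X n M v := by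
  obtain ⟨M, hM, h⟩ := T.denom X
  refine ⟨M, hM, fun n => ?_⟩
  filter_upwards [h, T.above X, slopes_pow T X n] with v h1 h2 h3
  exact ⟨h2, h3, h1⟩

theorem Good.defect_pow {X : Var} {n M : ℕ} {v : ι} (h : Good T X n M v) :
    (T.defect (T.pow X n) v : ℝ) = (n + 1) * T.deg X ^ n * T.defect X v := by
  rw [defect_cast, defect_cast, weights_pow, h.slopes_pow, defect_cpow (T.nz X) h.above]
  rfl

theorem Good.ord {X : Var} {n M : ℕ} {v : ι} (hM : 0 < M) (h : Good T X n M v)
    (hs : (M : ℝ) ^ 2 * T.defect X v < 1) : T.Ord X v := by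
  rw [defect_cast] at hs
  exact eq_of_small hM h.denom (T.int X) h.above hs

theorem Good.wrong_pow {X : Var} {n M : ℕ} {v : ι} (h : Good T X n M v) :
    (T.deg X : ℝ) ^ (n + 1) * (T.defect X v : ℝ) ^ 2 ≤ T.wrong (T.pow X n) v * kap (T.weights X) := by
  have h1 := wrong_cpow (T.nz X) h.above n
  rw [← defect_cast] at h1
  unfold Slopes.wrong
  rw [weights_pow, h.slopes_pow]
  exact h1

theorem Good.defect_nonneg {X : Var} {n M : ℕ} {v : ι} (h : Good T X n M v) :
    (0 : ℝ) ≤ T.defect X v := by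
  rw [defect_cast]
  have := h.above.two.1
  linarith

/-- few wrong slopes of one power imply ordinariness -/
theorem Good.ord_of_wrong {X : Var} {n M : ℕ} {v : ι} (hM : 0 < M) (h : Good T X n M v) {ε : ℝ}
    (hε : (M : ℝ) ^ 4 * (ε * kap (T.weights X)) < 1)
    (hw : (T.wrong (T.pow X n) v : ℝ) ≤ ε * T.deg (T.pow X n)) : T.Ord X v := by
  apply h.ord T hM
  have h1 := h.wrong_pow T
  have h2 := h.defect_nonneg T
  have hb : (0 : ℝ) < (T.deg X : ℝ) ^ (n + 1) := pow_pos (deg_pos T X) _
  rw [deg_pow] at hw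
  push_cast at hw
  have hk := kap_nonneg (T.weights X)
  have h3 : (T.deg X : ℝ) ^ (n + 1) * (T.defect X v : ℝ) ^ 2 ≤
      (T.deg X : ℝ) ^ (n + 1) * (ε * kap (T.weights X)) := by
    calc _ ≤ (T.wrong (T.pow X n) v : ℝ) * kap (T.weights X) := h1
      _ ≤ (ε * (T.deg X : ℝ) ^ (n + 1)) * kap (T.weights X) := mul_le_mul_of_nonneg_right hw hk
      _ = _ := by ring
  have h4 : (T.defect X v : ℝ) ^ 2 ≤ ε * kap (T.weights X) := le_of_mul_le_mul_left h3 hb
  have hM' : (0 : ℝ) < M := by exact_mod_cast hM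
  have h5 : ((M : ℝ) ^ 2 * T.defect X v) ^ 2 < 1 := by
    calc ((M : ℝ) ^ 2 * T.defect X v) ^ 2 = (M : ℝ) ^ 4 * (T.defect X v : ℝ) ^ 2 := by ring
      _ ≤ (M : ℝ) ^ 4 * (ε * kap (T.weights X)) := mul_le_mul_of_nonneg_left h4 (by positivity)
      _ < 1 := hε
  have h6 : 0 ≤ (M : ℝ) ^ 2 * (T.defect X v : ℝ) := by positivity
  by_contra h7
  rw [not_lt] at h7
  nlinarith

/-- small defect of one power implies ordinariness -/
theorem Good.ord_of_defect {X : Var} {n M : ℕ} {v : ι} (hM : 0 < M) (h : Good T X n M v) {ε : ℝ}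
    (hε : (M : ℝ) ^ 2 * (ε * T.deg X) < 1)
    (hw : (T.defect (T.pow X n) v : ℝ) ≤ ε * (n + 1) * T.deg (T.pow X n)) : T.Ord X v := by
  apply h.ord T hM
  have hb : (0 : ℝ) < (T.deg X : ℝ) ^ n := pow_pos (deg_pos T X) _
  rw [h.defect_pow, deg_pow] at hw
  push_cast at hw
  have h1 : ((n : ℝ) + 1) * T.deg X ^ n * (T.defect X v : ℝ) ≤
      ((n : ℝ) + 1) * T.deg X ^ n * (ε * T.deg X) := by
    calc _ ≤ ε * (n + 1) * (T.deg X : ℝ) ^ (n + 1) := hw
      _ = _ := by ring
  have h2 : (T.defect X v : ℝ) ≤ ε * T.deg X := le_of_mul_le_mul_left h1 (by positivity)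
  have hM' : (0 : ℝ) ≤ (M : ℝ) ^ 2 := by positivity
  exact lt_of_le_of_lt (mul_le_mul_of_nonneg_left h2 hM') hε

/-- close polygons of one power imply ordinariness -/
theorem Good.ord_of_near {X : Var} {n M : ℕ} {v : ι} (hM : 0 < M) (h : Good T X n M v) {ε R : ℝ}
    (hR0 : 0 ≤ R) (hR : ∀ a ∈ T.weights X, |(a.2 : ℝ)| ≤ R)
    (hε : (M : ℝ) ^ 2 * (ε * (4 * T.deg X * R)) < 1)
    (hw : T.NearAt (ε * T.deg (T.pow X n)) (T.pow X n) v) : T.Ord X v := by
  apply h.ord T hM
  have hb : (0 : ℝ) < (T.deg X : ℝ) ^ n := pow_pos (deg_pos T X) _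
  unfold Slopes.NearAt at hw
  rw [weights_pow, h.slopes_pow, deg_pow] at hw
  have h1 := near_cpow (T.nz X) h.above hR0 hR n hw
  rw [← defect_cast] at h1
  push_cast at h1
  have h2 : (T.deg X : ℝ) ^ n * (T.defect X v : ℝ) ≤ (T.deg X : ℝ) ^ n * (ε * (4 * T.deg X * R)) := by
    calc _ ≤ 4 * (ε * (T.deg X : ℝ) ^ (n + 1)) * R := h1
      _ = _ := by ring
  have h3 : (T.defect X v : ℝ) ≤ ε * (4 * T.deg X * R) := le_of_mul_le_mul_left h2 hb
  have hM' : (0 : ℝ) ≤ (M : ℝ) ^ 2 := by positivity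
  exact lt_of_le_of_lt (mul_le_mul_of_nonneg_left h3 hM') hε

theorem ord_defect {X : Var} {v : ι} (h : T.Ord X v) : T.defect X v = 0 := by
  unfold Slopes.defect
  unfold Slopes.Ord at h
  rw [h, sub_self]

theorem ord_wrong {X : Var} {v : ι} (h : T.Ord X v) : T.wrong X v = 0 := by
  unfold Slopes.wrong
  unfold Slopes.Ord at h
  rw [h]
  simp

theorem ord_near {X : Var} {v : ι} (h : T.Ord X v) {c : ℝ} (hc : 0 ≤ c) : T.NearAt c X v := by
  unfold Slopes.NearAt
  unfold Slopes.Ord at h
  rw [h]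
  exact near_self hc _

/-- a small positive number -/
theorem exists_eps (A : ℝ) (hA : 0 ≤ A) : ∃ ε : ℝ, 0 < ε ∧ ε * A < 1 := by
  refine ⟨1 / (A + 1), by positivity, ?_⟩
  rw [div_mul_eq_mul_div, one_mul, div_lt_one (by positivity)]
  linarith

theorem ord_iff_defectPow (hS : Large S) (X : Var) :
    {v | T.Ord X v} ∈ S ↔ T.DefectPow S X := by
  constructor
  · intro h ε hε
    refine ⟨0, hS.imp (Eventually.of_forall fun v hv => ?_) h⟩
    have h1 := ord_defect T hv
    show (T.defect X v : ℝ) ≤ ε * (((0 : ℕ) : ℝ) + 1) * T.deg X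
    rw [h1]
    push_cast
    have := deg_pos T X
    positivity
  · intro h
    obtain ⟨M, hM, hg⟩ := exists_good T X
    obtain ⟨ε, hε, hε2⟩ := exists_eps ((M : ℝ) ^ 2 * T.deg X) (by positivity)
    obtain ⟨n, hn⟩ := h ε hε
    exact hS.imp ((hg n).mono fun v hv hv' => hv.ord_of_defect T hM
      (by rw [mul_left_comm]; exact hε2) hv') hn

theorem ord_iff_wrongPow (hS : Large S) (X : Var) :
    {v | T.Ord X v} ∈ S ↔ T.WrongPow S X := by
  constructor
  · intro h ε hε
    refine ⟨0, hS.imp (Eventually.of_forall fun v hv => ?_) h⟩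
    have h1 := ord_wrong T hv
    show (T.wrong X v : ℝ) ≤ ε * T.deg X
    rw [h1]
    push_cast
    have := deg_pos T X
    positivity
  · intro h
    obtain ⟨M, hM, hg⟩ := exists_good T X
    obtain ⟨ε, hε, hε2⟩ := exists_eps ((M : ℝ) ^ 4 * kap (T.weights X))
      (mul_nonneg (by positivity) (kap_nonneg _))
    obtain ⟨n, hn⟩ := h ε hε
    exact hS.imp ((hg n).mono fun v hv hv' => hv.ord_of_wrong T hM
      (by rw [mul_left_comm]; exact hε2) hv') hn

theorem ord_iff_closePow (hS : Large S) (X : Var) :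
    {v | T.Ord X v} ∈ S ↔ T.ClosePow S X := by
  constructor
  · intro h ε hε
    refine ⟨0, hS.imp (Eventually.of_forall fun v hv => ?_) h⟩
    have := deg_pos T X
    exact ord_near (X := X) T hv (by show 0 ≤ ε * (T.deg X : ℝ); positivity)
  · intro h
    obtain ⟨M, hM, hg⟩ := exists_good T X
    obtain ⟨R, hR0, hR⟩ := exists_abs_bound (T.weights X)
    obtain ⟨ε, hε, hε2⟩ := exists_eps ((M : ℝ) ^ 2 * (4 * T.deg X * R)) (by positivity)
    obtain ⟨n, hn⟩ := h ε hε
    exact hS.imp ((hg n).mono fun v hv hv' => hv.ord_of_near T hM hR0 hR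
      (by rw [mul_left_comm]; exact hε2) hv') hn

/-- dimension zero -/
theorem ord_of_dim_zero {X : Var} (hX : T.dim X = 0) : ∀ᶠ v in cofinite, T.Ord X v := by
  filter_upwards [T.above X] with v hv
  have hv' : GAbove (T.slopes X v) (T.weights X) := hv
  refine hv'.two.2 ?_
  have h1 : mom 2 0 (T.weights X) = 0 := by
    unfold mom
    refine Multiset.sum_eq_zero fun x hx => ?_
    obtain ⟨a, ha, rfl⟩ := Multiset.mem_map.1 hx
    rw [T.zero X hX a ha]
    simp
  have h2 : 0 ≤ mom 2 0 (T.slopes X v) := by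
    unfold mom
    exact Multiset.sum_nonneg (by
      intro z hz
      obtain ⟨a, -, rfl⟩ := Multiset.mem_map.1 hz
      positivity)
  have h3 := hv'.two.1
  linarith

theorem tendsto_mul_succ {d : ℕ} (hd : 0 < d) : Tendsto (fun n : ℕ => (n + 1) * d) atTop atTop := by
  refine tendsto_atTop_mono (fun n => ?_) tendsto_id
  show n ≤ (n + 1) * d
  nlinarith

theorem allOrd_iff_smallDefect (hS : Large S) : T.AllOrd S ↔ T.SmallDefect S := by
  constructor
  · intro h
    refine ⟨fun _ => 0, by simp, fun X => hS.imp (Eventually.of_forall fun v hv => ?_) (h X)⟩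
    rw [ord_defect T hv]
    simp
  · rintro ⟨f, hf, h⟩ X
    rcases Nat.eq_zero_or_pos (T.dim X) with h0 | h0
    · exact hS.of_eventually (ord_of_dim_zero T h0)
    rw [ord_iff_defectPow T hS]
    intro ε hε
    have h1 := hf.comp (tendsto_mul_succ h0)
    have hd : (0 : ℝ) < T.dim X := by exact_mod_cast h0
    obtain ⟨n, hn⟩ := (h1.eventually (gt_mem_nhds (show (0 : ℝ) < ε / T.dim X by positivity))).exists
    refine ⟨n, hS.imp (Eventually.of_forall fun v hv => le_trans hv ?_) (h (T.pow X n))⟩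
    refine mul_le_mul_of_nonneg_right ?_ (Nat.cast_nonneg _)
    rw [dim_pow]
    simp only [Function.comp_apply] at hn
    rw [div_lt_div_iff₀ (by push_cast; positivity) hd] at hn
    push_cast at hn
    have h2 : f ((n + 1) * T.dim X) * T.dim X < (ε * (n + 1)) * T.dim X := by
      calc _ < ε * (((n : ℝ) + 1) * T.dim X) := hn
        _ = _ := by ring
    exact (lt_of_mul_lt_mul_right h2 hd.le).le

theorem allOrd_iff_fewWrong (hS : Large S) : T.AllOrd S ↔ T.FewWrong S := by
  constructor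
  · intro h
    refine ⟨fun _ => 0, tendsto_const_nhds, fun X =>
      hS.imp (Eventually.of_forall fun v hv => ?_) (h X)⟩
    rw [ord_wrong T hv]
    simp
  · rintro ⟨f, hf, h⟩ X
    rcases Nat.eq_zero_or_pos (T.dim X) with h0 | h0
    · exact hS.of_eventually (ord_of_dim_zero T h0)
    rw [ord_iff_wrongPow T hS]
    intro ε hε
    have h1 := hf.comp (tendsto_mul_succ h0)
    obtain ⟨n, hn⟩ := (h1.eventually (gt_mem_nhds hε)).exists
    refine ⟨n, hS.imp (Eventually.of_forall fun v hv => le_trans hv ?_) (h (T.pow X n))⟩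
    refine mul_le_mul_of_nonneg_right ?_ (Nat.cast_nonneg _)
    rw [dim_pow]
    exact hn.le

theorem Near.mono {c c' : ℝ} {s w : Multiset ℚ} (h : Near c s w) (hc : c ≤ c') : Near c' s w := by
  obtain ⟨n, a, b, ha, hb, hs, hw, hp⟩ := h
  exact ⟨n, a, b, ha, hb, hs, hw, fun m hm => (hp m hm).trans hc⟩

theorem allOrd_iff_close (hS : Large S) : T.AllOrd S ↔ T.Close S := by
  constructor
  · intro h
    refine ⟨fun _ => 0, tendsto_const_nhds, fun X =>
      hS.imp (Eventually.of_forall fun v hv => ?_) (h X)⟩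
    exact ord_near T hv (by simp)
  · rintro ⟨f, hf, h⟩ X
    rcases Nat.eq_zero_or_pos (T.dim X) with h0 | h0
    · exact hS.of_eventually (ord_of_dim_zero T h0)
    rw [ord_iff_closePow T hS]
    intro ε hε
    have h1 := hf.comp (tendsto_mul_succ h0)
    obtain ⟨n, hn⟩ := (h1.eventually (gt_mem_nhds hε)).exists
    refine ⟨n, hS.imp (Eventually.of_forall fun v hv => Near.mono hv ?_) (h (T.pow X n))⟩
    refine mul_le_mul_of_nonneg_right ?_ (Nat.cast_nonneg _)
    rw [dim_pow]
    exact hn.le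

/-- many degrees at once -/
theorem many_degrees (X : Var) (L : List ℕ) : L ≠ [] → (∀ i ∈ L, part (T.weights X) i ≠ 0) →
    ∃ (n N : ℕ), part (T.weights (T.pow X n)) N ≠ 0 ∧
      ∀ᶠ v in cofinite, T.OrdAt (T.pow X n) N v → ∀ i ∈ L, T.OrdAt X i v := by
  induction L with
  | nil => intro h; exact absurd rfl h
  | cons i L ih =>
    intro _ hL
    by_cases hL0 : L = []
    · subst hL0
      refine ⟨0, i, hL i (List.mem_cons_self), Eventually.of_forall fun v hv j hj => ?_⟩
      rw [List.mem_singleton] at hj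
      rw [hj]
      exact hv
    · obtain ⟨n, N, h1, h2⟩ := ih hL0 fun j hj => hL j (List.mem_cons_of_mem _ hj)
      have hi := hL i (List.mem_cons_self)
      refine ⟨n + 1, i + N, ?_, ?_⟩
      · rw [Slopes.pow, T.weights_prod]
        exact part_conv_ne_zero hi h1
      · filter_upwards [h2, T.above X, T.above (T.pow X n), T.slopes_prod X (T.pow X n)]
          with v k1 k2 k3 k4 hv
        have k5 : part (conv (T.slopes X v) (T.slopes (T.pow X n) v)) (i + N) =
            part (conv (T.weights X) (T.weights (T.pow X n))) (i + N) := by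
          rw [← k4, ← T.weights_prod]
          exact hv
        obtain ⟨k6, k7⟩ := pair k2 k3 hi h1 k5
        intro j hj
        rcases List.mem_cons.1 hj with rfl | hj
        · exact k6
        · exact k1 k7 j hj

theorem q1_iff_allOrd (hS : Large S) : T.Q1 S ↔ T.AllOrd S := by
  classical
  constructor
  · intro h X
    obtain ⟨B, hB⟩ := exists_bound (T.weights X)
    set L : List ℕ := (List.range B).filter fun i => part (T.weights X) i ≠ 0 with hLdef
    have hL : ∀ i ∈ L, part (T.weights X) i ≠ 0 := by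
      intro i hi
      rw [hLdef, List.mem_filter] at hi
      exact of_decide_eq_true hi.2
    have hne : ∀ i, part (T.weights X) i ≠ 0 → i ∈ L := by
      intro i hi
      rw [hLdef, List.mem_filter]
      refine ⟨List.mem_range.2 ?_, decide_eq_true hi⟩
      obtain ⟨x, hx⟩ := Multiset.exists_mem_of_ne_zero hi
      unfold part at hx
      obtain ⟨a, ha, -⟩ := Multiset.mem_map.1 hx
      obtain ⟨ha, hai⟩ := Multiset.mem_filter.1 ha
      rw [← hai]
      exact hB a ha
    have hL0 : L ≠ [] := by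
      obtain ⟨a, ha⟩ := Multiset.exists_mem_of_ne_zero (T.nz X)
      have h1 : part (T.weights X) a.1 ≠ 0 := by
        intro h2
        have h3 : a.2 ∈ part (T.weights X) a.1 := by
          unfold part
          exact Multiset.mem_map.2 ⟨a, Multiset.mem_filter.2 ⟨ha, rfl⟩, rfl⟩
        rw [h2] at h3
        exact Multiset.notMem_zero _ h3
      exact List.ne_nil_of_mem (hne _ h1)
    obtain ⟨n, N, -, h2⟩ := many_degrees T X L hL0 hL
    refine hS.imp ?_ (h (T.pow X n) N)
    filter_upwards [h2, T.above X] with v hv2 hv3 hv1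
    refine ext_part fun i => ?_
    by_cases hi : part (T.weights X) i = 0
    · rw [hi]
      have h4 := (hv3 i).card_eq
      rw [hi, Multiset.card_zero] at h4
      exact Multiset.card_eq_zero.1 h4
    · exact hv2 hv1 i (hne i hi)
  · intro h X i
    refine hS.imp (Eventually.of_forall fun v hv => ?_) (h X)
    unfold Slopes.OrdAt
    unfold Slopes.Ord at hv
    rw [hv]

theorem ord_prod (X Y : Var) :
    ∀ᶠ v in cofinite, T.Ord (T.prod X Y) v → T.Ord X v ∧ T.Ord Y v := by
  filter_upwards [T.above X, T.above Y, T.slopes_prod X Y] with v h1 h2 h3 hv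
  have h1' : GAbove (T.slopes X v) (T.weights X) := h1
  have h2' : GAbove (T.slopes Y v) (T.weights Y) := h2
  unfold Slopes.Ord at hv
  rw [h3, T.weights_prod] at hv
  have e := congrArg (mom 2 (0 + 0)) hv
  rw [mom_two_conv, mom_two_conv, h1'.mom_one, h2'.mom_one, h1'.card_eq, h2'.card_eq] at e
  have a1 := deg_pos T X
  have a2 := deg_pos T Y
  unfold Slopes.deg at a1 a2
  have b1 := h1'.two.1
  have b2 := h2'.two.1
  have c1 : 0 ≤ ((T.weights Y).card : ℝ) * (mom 2 0 (T.weights X) - mom 2 0 (T.slopes X v)) :=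
    mul_nonneg a2.le (by linarith)
  have c2 : 0 ≤ ((T.weights X).card : ℝ) * (mom 2 0 (T.weights Y) - mom 2 0 (T.slopes Y v)) :=
    mul_nonneg a1.le (by linarith)
  have d1 : ((T.weights Y).card : ℝ) * (mom 2 0 (T.weights X) - mom 2 0 (T.slopes X v)) = 0 := by
    nlinarith
  have d2 : ((T.weights X).card : ℝ) * (mom 2 0 (T.weights Y) - mom 2 0 (T.slopes Y v)) = 0 := by
    nlinarith
  refine ⟨h1'.two.2 ?_, h2'.two.2 ?_⟩
  · rcases mul_eq_zero.1 d1 with h | h
    · exact absurd h a2.ne'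
    · linarith
  · rcases mul_eq_zero.1 d2 with h | h
    · exact absurd h a1.ne'
    · linarith

/-- the product of finitely many members of a sequence -/
def prods (X : ℕ → Var) : ℕ → Var
  | 0 => X 0
  | n + 1 => T.prod (X (n + 1)) (prods X n)

theorem ord_prods (X : ℕ → Var) (k : ℕ) :
    ∀ᶠ v in cofinite, T.Ord (prods T X k) v → ∀ j ≤ k, T.Ord (X j) v := by
  induction k with
  | zero =>
    refine Eventually.of_forall fun v hv j hj => ?_
    rw [Nat.le_zero.1 hj]
    exact hv
  | succ k ih =>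
    filter_upwards [ih, ord_prod T (X (k + 1)) (prods T X k)] with v h1 h2 hv j hj
    obtain ⟨h3, h4⟩ := h2 hv
    rcases Nat.lt_or_ge k j with h5 | h5
    · have : j = k + 1 := by omega
      rw [this]
      exact h3
    · exact h1 h4 j h5

theorem q1_iff_universal [Countable Var] (hS : Large S) (hW : Witnessed S) :
    T.Q1 S ↔ T.Universal S := by
  rw [q1_iff_allOrd T hS]
  constructor
  · intro h
    rcases isEmpty_or_nonempty Var with hV | hV
    · exact ⟨Set.univ, hS.univ_mem, fun X => (hV.false X).elim⟩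
    · obtain ⟨X, hX⟩ := exists_surjective_nat Var
      obtain ⟨P, hP, h1⟩ := hW.exists_pseudo (fun k => {v | T.Ord (X k) v})
        (fun k => hS.imp (ord_prods T X k) (h (prods T X k)))
      refine ⟨P, hP, fun Y => ?_⟩
      obtain ⟨k, rfl⟩ := hX Y
      exact h1 k
  · rintro ⟨P, hP, h⟩ X
    exact hS.almost P _ hP (h X)

end Pool.Agent.W5h2.OR
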